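import Pool.Agent.Q58.CN.Smooth

/-! Connectedness of the surface. -/

set_option autoImplicit false

open Filter Topology Set
open Pool.Agent.TH144.CN

namespace Pool.Agent.Q58.CN

/-- the map `z ↦ z ^ 4` is open -/
theorem nhds_pow4 (z : ℂ) {V : Set ℂ} (hV : V ∈ 𝓝 z) : (fun w : ℂ => w ^ 4) '' V ∈ 𝓝 (z ^ 4) := by
  have han : AnalyticAt ℂ (fun w : ℂ => w ^ 4) z := (analyticAt_id).pow 4
  rcases han.eventually_constant_or_nhds_le_map_nhds with h | h
  · exfalso
    have h1 : ({w : ℂ | w ^ 4 = z ^ 4} : Set ℂ).Finite := by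
      have hp : (Polynomial.X ^ 4 - Polynomial.C (z ^ 4) : Polynomial ℂ) ≠ 0 :=
        Polynomial.X_pow_sub_C_ne_zero (by norm_num) _
      refine (Polynomial.finite_setOfPred_isRoot hp).subset fun w hw => ?_
      simp only [Set.mem_ofPred_eq] at hw ⊢
      rw [Polynomial.IsRoot.def]
      simp [hw]
    have h2 : {w : ℂ | w ^ 4 = z ^ 4} ∈ 𝓝 z := h
    exact (infinite_of_mem_nhds z h2) h1
  · exact h (image_mem_map hV)

theorem open_proj {E : Type*} [TopologicalSpace E] {c : E → ℂ} (hc : Continuous c)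
    {O : Set (E × ℂ)} (hO : IsOpen O) : IsOpen {y : E | ∃ z, z ^ 4 = c y ∧ (y, z) ∈ O} := by
  rw [isOpen_iff_mem_nhds]
  rintro y ⟨z, hz, hyz⟩
  obtain ⟨U, hU, V, hV, hUV⟩ := mem_nhds_prod_iff.1 (hO.mem_nhds hyz)
  have h1 := nhds_pow4 z hV
  rw [hz] at h1
  filter_upwards [hU, hc.continuousAt h1] with y' hy' hcy'
  obtain ⟨z', hz', e⟩ := hcy'
  exact ⟨z', e, hUV ⟨hy', hz'⟩⟩

theorem four_roots {z w : ℂ} (h : z ^ 4 = w ^ 4) : ∃ k : Fin 4, z = Complex.I ^ (k : ℕ) * w := by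
  have h1 : (z - w) * (z + w) * ((z - Complex.I * w) * (z + Complex.I * w)) = 0 := by
    linear_combination h + (w ^ 4 - z ^ 2 * w ^ 2) * Complex.I_sq
  rcases mul_eq_zero.1 h1 with h2 | h2 <;> rcases mul_eq_zero.1 h2 with h3 | h3
  · exact ⟨0, by simp; linear_combination h3⟩
  · refine ⟨2, ?_⟩
    change z = Complex.I ^ 2 * w
    rw [Complex.I_sq]
    linear_combination h3
  · refine ⟨1, ?_⟩
    change z = Complex.I ^ 1 * w
    linear_combination h3
  · refine ⟨3, ?_⟩
    change z = Complex.I ^ 3 * w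
    rw [Complex.I_pow_three]
    linear_combination h3

/-- A cyclic cover of degree 4 with a totally ramified point is connected. -/
theorem cyclic_cover {E : Type*} [TopologicalSpace E] {c : E → ℂ} (hc : Continuous c)
    {T : Set E} (hT : IsPreconnected T) (h0 : ∃ y ∈ T, c y = 0) :
    IsPreconnected {p : E × ℂ | p.1 ∈ T ∧ p.2 ^ 4 = c p.1} := by
  intro u v hu hv huv hSu hSv
  by_contra hempty
  rw [not_nonempty_iff_eq_empty] at hempty
  have hdis : ∀ y ∈ T, ∀ z, z ^ 4 = c y → (y, z) ∈ u → (y, z) ∉ v := by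
    intro y hy z hz h1 h2
    have : (y, z) ∈ ({p : E × ℂ | p.1 ∈ T ∧ p.2 ^ 4 = c p.1} ∩ (u ∩ v) : Set (E × ℂ)) :=
      ⟨⟨hy, hz⟩, h1, h2⟩
    rw [hempty] at this
    exact this
  -- the key step, for both sets
  have key : ∀ u v : Set (E × ℂ), IsOpen u → IsOpen v →
      {p : E × ℂ | p.1 ∈ T ∧ p.2 ^ 4 = c p.1} ⊆ u ∪ v →
      (∀ y ∈ T, ∀ z, z ^ 4 = c y → (y, z) ∈ u → (y, z) ∉ v) →
      ({p : E × ℂ | p.1 ∈ T ∧ p.2 ^ 4 = c p.1} ∩ u).Nonempty →
      ∀ y ∈ T, ∃ z, z ^ 4 = c y ∧ (y, z) ∈ u := by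
    intro u v hu hv huv hdis hSu y hy
    by_contra hcon
    push Not at hcon
    set O : Set (E × ℂ) := ⋂ k : Fin 4, {p : E × ℂ | (p.1, Complex.I ^ (k : ℕ) * p.2) ∈ v} with hO
    have hOo : IsOpen O := isOpen_iInter_of_finite fun k => hv.preimage (by fun_prop)
    have hU := open_proj hc hu
    have hW := open_proj hc hOo
    have hcov : T ⊆ {y : E | ∃ z, z ^ 4 = c y ∧ (y, z) ∈ u} ∪
        {y : E | ∃ z, z ^ 4 = c y ∧ (y, z) ∈ O} := by
      intro y' hy'
      obtain ⟨z, hz⟩ := IsAlgClosed.exists_pow_nat_eq (c y') (n := 4) (by norm_num)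
      by_cases h1 : ∃ k : Fin 4, (y', Complex.I ^ (k : ℕ) * z) ∈ u
      · obtain ⟨k, hk⟩ := h1
        left
        refine ⟨_, ?_, hk⟩
        rw [mul_pow, ← pow_mul, mul_comm (k : ℕ) 4, pow_mul, Complex.I_pow_four, one_pow, one_mul,
          hz]
      · right
        refine ⟨z, hz, ?_⟩
        rw [hO, mem_iInter]
        intro k
        have h2 : (y', Complex.I ^ (k : ℕ) * z) ∈ u ∪ v := by
          apply huv
          refine ⟨hy', ?_⟩
          simp only
          rw [mul_pow, ← pow_mul, mul_comm (k : ℕ) 4, pow_mul, Complex.I_pow_four, one_pow,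
            one_mul, hz]
        rcases h2 with h2 | h2
        · exact absurd ⟨k, h2⟩ h1
        · exact h2
    have hne1 : (T ∩ {y : E | ∃ z, z ^ 4 = c y ∧ (y, z) ∈ u}).Nonempty := by
      obtain ⟨p, ⟨hp1, hp2⟩, hp3⟩ := hSu
      exact ⟨p.1, hp1, p.2, hp2, hp3⟩
    have hne2 : (T ∩ {y : E | ∃ z, z ^ 4 = c y ∧ (y, z) ∈ O}).Nonempty := by
      refine ⟨y, hy, ?_⟩
      rcases hcov hy with ⟨z, hz, hz'⟩ | h
      · exact absurd hz' (hcon z hz)
      · exact h
    obtain ⟨y', hy', ⟨z, hz, hzu⟩, ⟨z', hz', hzO⟩⟩ := hT _ _ hU hW hcov hne1 hne2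
    obtain ⟨k, hk⟩ := four_roots (hz.trans hz'.symm)
    rw [hO, mem_iInter] at hzO
    have h3 := hzO k
    simp only [Set.mem_ofPred_eq] at h3
    rw [← hk] at h3
    exact hdis y' hy' z hz hzu h3
  obtain ⟨y, hy, hcy⟩ := h0
  obtain ⟨z, hz, hzu⟩ := key u v hu hv huv hdis hSu y hy
  obtain ⟨z', hz', hzv⟩ := key v u hv hu (by rwa [union_comm])
    (fun y hy z hz h1 h2 => hdis y hy z hz h2 h1) hSv y hy
  have e1 : z = 0 := (pow_eq_zero_iff (by norm_num)).1 (hz.trans hcy)
  have e2 : z' = 0 := (pow_eq_zero_iff (by norm_num)).1 (hz'.trans hcy)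
  rw [e1] at hzu hz
  rw [e2] at hzv
  exact hdis y hy 0 hz hzu hzv

/-- the complement of the special member of the pencil is connected -/
theorem A_conn : IsPreconnected {x : Fin 3 → ℂ | Af x ≠ 0} := by
  refine isPreconnected_of_forall_pair fun p hp q hq => ?_
  set l : Fin 3 → Polynomial ℂ := fun i =>
    Polynomial.C (p i) + Polynomial.C (q i - p i) * Polynomial.X with hl
  set P : Polynomial ℂ := l 0 ^ 240 * l 2 ^ 16 + l 1 ^ 256 + l 0 ^ 16 * l 1 ^ 240 with hP
  have hev : ∀ z : ℂ, P.eval z = Af (fun i => p i + (q i - p i) * z) := by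
    intro z
    rw [hP, hl]
    simp only [Polynomial.eval_add, Polynomial.eval_mul, Polynomial.eval_pow, Polynomial.eval_C,
      Polynomial.eval_X, Af]
  have hP0 : P ≠ 0 := by
    intro h0
    have h1 := hev 0
    rw [h0] at h1
    simp only [Polynomial.eval_zero, mul_zero, add_zero] at h1
    exact hp h1.symm
  have hfin := Polynomial.finite_setOfPred_isRoot hP0
  have hconn : IsConnected ({z : ℂ | P.IsRoot z}ᶜ) :=
    hfin.countable.isConnected_compl_of_one_lt_rank (by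
      rw [Complex.rank_real_complex]; norm_num)
  refine ⟨(fun z : ℂ => fun i => p i + (q i - p i) * z) '' {z : ℂ | P.IsRoot z}ᶜ, ?_, ?_, ?_, ?_⟩
  · rintro _ ⟨z, hz, rfl⟩
    simp only [Set.mem_compl_iff, Set.mem_ofPred_eq, Polynomial.IsRoot.def] at hz
    rw [hev] at hz
    exact hz
  · refine ⟨0, ?_, ?_⟩
    · simp only [Set.mem_compl_iff, Set.mem_ofPred_eq, Polynomial.IsRoot.def]
      rw [hev]
      simpa using hp
    · funext i; simp
  · refine ⟨1, ?_, ?_⟩
    · simp only [Set.mem_compl_iff, Set.mem_ofPred_eq, Polynomial.IsRoot.def]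
      rw [hev]
      simpa using hq
    · funext i; simp
  · refine hconn.isPreconnected.image _ (Continuous.continuousOn ?_)
    fun_prop

/-- the complement of the special member of the pencil is dense -/
theorem A_dense (x : Fin 3 → ℂ) : x ∈ closure {x : Fin 3 → ℂ | Af x ≠ 0} := by
  set P : Polynomial ℂ := Polynomial.C (x 0 ^ 240 * x 2 ^ 16) +
    (Polynomial.C (x 1) + Polynomial.X) ^ 256 +
    Polynomial.C (x 0 ^ 16) * (Polynomial.C (x 1) + Polynomial.X) ^ 240 with hP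
  have hev : ∀ z : ℂ, P.eval z = Af ![x 0, x 1 + z, x 2] := by
    intro z
    rw [hP]
    simp [Af]
  have hP0 : P ≠ 0 := by
    intro h0
    have h1 : ∀ t : ℂ, x 0 ^ 240 * x 2 ^ 16 + t ^ 256 + x 0 ^ 16 * t ^ 240 = 0 := by
      intro t
      have h2 := hev (t - x 1)
      rw [h0] at h2
      simp only [Polynomial.eval_zero] at h2
      rw [h2]
      simp [Af]
    have h2 := h1 0
    have h3 := h1 1
    have h4 : ∀ t : ℂ, t ^ 240 * (t ^ 16 + x 0 ^ 16) = 0 := by
      intro t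
      linear_combination h1 t - h2
    obtain ⟨t, ht⟩ := IsAlgClosed.exists_pow_nat_eq (1 - x 0 ^ 16) (n := 16) (by norm_num)
    have h5 := h4 t
    rw [ht] at h5
    have h6 : t ^ 240 = 0 := by linear_combination h5
    have ht0 : t = 0 := (pow_eq_zero_iff (by norm_num)).1 h6
    rw [ht0] at ht
    obtain ⟨r, hr⟩ := IsAlgClosed.exists_pow_nat_eq (2 : ℂ) (n := 16) (by norm_num)
    have h7 := h4 r
    rw [hr] at h7
    have h8 : x 0 ^ 16 = 1 := by linear_combination ht
    rw [h8] at h7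
    have h9 : r ^ 240 = 0 := by
      apply (mul_eq_zero.1 h7).resolve_right; norm_num
    have h10 : r = 0 := (pow_eq_zero_iff (by norm_num)).1 h9
    rw [h10] at hr
    norm_num at hr
  have hfin := Polynomial.finite_setOfPred_isRoot hP0
  have hd : Dense ({z : ℂ | P.IsRoot z}ᶜ) := hfin.countable.dense_compl ℝ
  have h0 : (0 : ℂ) ∈ closure ({z : ℂ | P.IsRoot z}ᶜ) := hd 0
  have hcont : Continuous (fun z : ℂ => (![x 0, x 1 + z, x 2] : Fin 3 → ℂ)) := by
    refine continuous_pi fun i => ?_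
    fin_cases i
    · exact continuous_const
    · exact continuous_const.add continuous_id
    · exact continuous_const
  have h1 : (![x 0, x 1 + 0, x 2] : Fin 3 → ℂ) = x := by
    funext i
    fin_cases i <;> simp
  have h2 := (hcont.continuousAt (x := 0)).continuousWithinAt.mem_closure h0
    (t := {x : Fin 3 → ℂ | Af x ≠ 0}) (fun z hz => by
      simp only [Set.mem_compl_iff, Set.mem_ofPred_eq, Polynomial.IsRoot.def] at hz ⊢
      rwa [hev] at hz)
  rwa [h1] at h2

end Pool.Agent.Q58.CN
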