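import Pool.Agent.Q58.CN.Conn

/-! Connectedness of the surface, second part. -/

set_option autoImplicit false

open Filter Topology Set
open Pool.Agent.TH144.CN

namespace Pool.Agent.Q58.CN

/-- the pencil, over the cone of the projective line -/
def Tp (γ : ℂ) : Set ((ℂ × ℂ) × (Fin 3 → ℂ)) :=
  {p | p.1 ≠ 0 ∧ p.2 ≠ 0 ∧ p.1.1 * Af p.2 + 2 * p.1.2 * Gf γ p.2 = 0}

theorem Af_zero : Af 0 = 0 := by simp [Af]

theorem Tp_open_conn (γ : ℂ) : IsPreconnected {p | p ∈ Tp γ ∧ Af p.2 ≠ 0} := by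
  have h1 : IsPreconnected ({s : ℂ | s ≠ 0} ×ˢ {x : Fin 3 → ℂ | Af x ≠ 0}) := by
    refine IsPreconnected.prod ?_ A_conn
    have : ({s : ℂ | s ≠ 0} : Set ℂ) = {0}ᶜ := by ext; simp
    rw [this]
    exact ((countable_singleton (0 : ℂ)).isConnected_compl_of_one_lt_rank (by
      rw [Complex.rank_real_complex]; norm_num)).isPreconnected
  have hA := Af_cont
  have hG := Gf_cont γ
  have h2 := h1.image (fun p : ℂ × (Fin 3 → ℂ) =>
    (((2 * p.1 * Gf γ p.2, -(p.1 * Af p.2)) : ℂ × ℂ), p.2)) (Continuous.continuousOn (by fun_prop))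
  convert h2 using 1
  ext p
  constructor
  · rintro ⟨⟨hp1, hp2, hp3⟩, hp4⟩
    refine ⟨(-p.1.2 / Af p.2, p.2), ⟨?_, hp4⟩, ?_⟩
    · simp only [Set.mem_ofPred_eq]
      intro h0
      have h3 : p.1.2 = 0 := by
        field_simp at h0
        simpa using h0
      apply hp1
      rw [h3] at hp3
      have h4 : p.1.1 * Af p.2 = 0 := by linear_combination hp3
      exact Prod.ext ((mul_eq_zero.1 h4).resolve_right hp4) h3
    · refine Prod.ext (Prod.ext ?_ ?_) rfl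
      · simp only
        field_simp
        linear_combination -hp3
      · simp only
        field_simp
  · rintro ⟨⟨s, x⟩, ⟨hs, hx⟩, rfl⟩
    simp only [Set.mem_ofPred_eq] at hs hx
    refine ⟨⟨?_, ?_, ?_⟩, hx⟩
    · intro h0
      have := congrArg Prod.snd h0
      simp only [Prod.snd_zero, neg_eq_zero] at this
      exact mul_ne_zero hs hx this
    · rintro h0
      simp only at h0
      rw [h0] at hx
      exact hx Af_zero
    · simp only
      ring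

/-- the map given by the generators of the pencil -/
def AG (γ : ℂ) (x : Fin 3 → ℂ) : ℂ × ℂ := (Af x, Gf γ x)

theorem AG_open {γ : ℂ} (hγ0 : γ ≠ 0) (hγ1 : γ ∉ bad1) {x : Fin 3 → ℂ} (hx : x ≠ 0)
    (hA : Af x = 0) (hG : Gf γ x = 0) : map (AG γ) (𝓝 x) = 𝓝 (0 : ℂ × ℂ) := by
  have hp : ∀ i : Fin 3, HasStrictFDerivAt (fun x : Fin 3 → ℂ => x i)
      (ContinuousLinearMap.proj (R := ℂ) (φ := fun _ : Fin 3 => ℂ) i) x := fun i =>
    (ContinuousLinearMap.proj (R := ℂ) (φ := fun _ : Fin 3 => ℂ) i).hasStrictFDerivAt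
  have hdA := ((((hp 0).pow 240).mul ((hp 2).pow 16)).add ((hp 1).pow 256)).add
    (((hp 0).pow 16).mul ((hp 1).pow 240))
  have hdG := (((hp 0).pow 256).add ((hp 1).pow 256)).add (((hp 2).pow 256).const_mul γ)
  have hd := hdA.prodMk hdG
  have hAG : HasStrictFDerivAt (AG γ) _ x := hd
  have hval : AG γ x = 0 := Prod.ext hA hG
  rw [← hval]
  refine hAG.map_nhds_eq_of_surj ?_
  by_contra hne
  obtain ⟨f, hf0, hf⟩ := Submodule.exists_le_ker_of_lt_top _ (lt_top_iff_ne_top.2 hne)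
  have hfe : ∀ a b : ℂ, f (a, b) = a * f (1, 0) + b * f (0, 1) := by
    intro a b
    have : ((a, b) : ℂ × ℂ) = a • ((1, 0) : ℂ × ℂ) + b • ((0, 1) : ℂ × ℂ) := by
      simp
    rw [this, map_add, map_smul, map_smul, smul_eq_mul, smul_eq_mul]
  have hk : ∀ v : Fin 3 → ℂ, _ := fun v => hf (LinearMap.mem_range_self _ v)
  have h1 := hk ![0, 1, 0]
  have h2 := hk ![0, 0, 1]
  rw [LinearMap.mem_ker] at h1 h2
  rw [ContinuousLinearMap.coe_coe, ContinuousLinearMap.prod_apply, hfe] at h1 h2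
  simp only [add_apply, smul_apply, ContinuousLinearMap.proj_apply] at h1 h2
  have s0 : (![0, 1, 0] : Fin 3 → ℂ) 0 = 0 := rfl
  have s1 : (![0, 1, 0] : Fin 3 → ℂ) 1 = 1 := rfl
  have s2 : (![0, 1, 0] : Fin 3 → ℂ) 2 = 0 := rfl
  have t0 : (![0, 0, 1] : Fin 3 → ℂ) 0 = 0 := rfl
  have t1 : (![0, 0, 1] : Fin 3 → ℂ) 1 = 0 := rfl
  have t2 : (![0, 0, 1] : Fin 3 → ℂ) 2 = 1 := rfl
  rw [s0, s1, s2] at h1
  rw [t0, t1, t2] at h2
  have hxne : x 0 ^ 16 ≠ 0 ∨ x 1 ^ 16 ≠ 0 ∨ x 2 ^ 16 ≠ 0 := by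
    by_contra hcon
    push Not at hcon
    apply hx
    funext i
    fin_cases i
    · exact (pow_eq_zero_iff (by norm_num)).1 hcon.1
    · exact (pow_eq_zero_iff (by norm_num)).1 hcon.2.1
    · exact (pow_eq_zero_iff (by norm_num)).1 hcon.2.2
  have hdiv : ∀ z r : ℂ, 16 * z ^ 15 * r = 0 → z ^ 16 = 0 ∨ r = 0 := by
    intro z r hz
    rcases mul_eq_zero.1 hz with h2 | h2
    · left
      have := (pow_eq_zero_iff (by norm_num)).1
        ((mul_eq_zero.1 h2).resolve_left (by norm_num : (16 : ℂ) ≠ 0))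
      rw [this]; norm_num
    · exact Or.inr h2
  unfold Af at hA
  unfold Gf at hG
  have k1 := hdiv (x 1) (f (1, 0) * (16 * (x 1 ^ 16) ^ 15 + 15 * x 0 ^ 16 * (x 1 ^ 16) ^ 14) +
    16 * f (0, 1) * (x 1 ^ 16) ^ 15) (by linear_combination h1)
  have k2 := hdiv (x 2) (f (1, 0) * (x 0 ^ 16) ^ 15 + 16 * f (0, 1) * γ * (x 2 ^ 16) ^ 15)
    (by linear_combination h2)
  obtain ⟨h3, h4⟩ := base_indep hγ0 hγ1 (u := x 0 ^ 16) (v := x 1 ^ 16) (w := x 2 ^ 16)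
    hxne (by linear_combination hA) (by linear_combination hG) k1 k2
  apply hf0
  refine LinearMap.ext fun p => ?_
  obtain ⟨a, b⟩ := p
  rw [hfe, h3, h4]
  simp

theorem Tp_conn {γ : ℂ} (hγ0 : γ ≠ 0) (hγ1 : γ ∉ bad1) : IsPreconnected (Tp γ) := by
  refine (Tp_open_conn γ).subset_closure (fun p hp => hp.1) ?_
  rintro ⟨⟨c0, c1⟩, x⟩ ⟨hp1, hp2, hp3⟩
  simp only at hp1 hp2 hp3
  by_cases hA : Af x = 0
  swap
  · exact subset_closure ⟨⟨hp1, hp2, hp3⟩, hA⟩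
  rw [hA, mul_zero, zero_add] at hp3
  by_cases hG : Gf γ x = 0
  · -- base points
    have hmap := AG_open hγ0 hγ1 hp2 hA hG
    rw [mem_closure_iff_nhds]
    intro N hN
    obtain ⟨W, hW, U, hU, hWU⟩ := mem_nhds_prod_iff.1 hN
    -- choose the direction
    obtain ⟨c1', hc1', hc1W⟩ : ∃ c1' : ℂ, c1' ≠ 0 ∧ (c0, c1') ∈ W := by
      have hcc : Continuous (fun z : ℂ => ((c0, z) : ℂ × ℂ)) := by fun_prop
      have h1 : (fun z : ℂ => ((c0, z) : ℂ × ℂ)) ⁻¹' W ∈ 𝓝 c1 := hcc.continuousAt hW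
      have h2 : Dense ({(0 : ℂ)}ᶜ : Set ℂ) := dense_compl_singleton 0
      obtain ⟨z, hz, hz'⟩ := mem_closure_iff_nhds.1 (h2 c1) _ h1
      exact ⟨z, hz', hz⟩
    have hxn : U ∩ {x : Fin 3 → ℂ | x ≠ 0} ∈ 𝓝 x := inter_mem hU (isOpen_ne.mem_nhds hp2)
    have h3 : AG γ '' (U ∩ {x : Fin 3 → ℂ | x ≠ 0}) ∈ 𝓝 (0 : ℂ × ℂ) := by
      rw [← hmap]; exact image_mem_map hxn
    have h4 : (fun ε : ℂ => ((-(2 * ε * c1'), ε * c0) : ℂ × ℂ)) ⁻¹'
        (AG γ '' (U ∩ {x : Fin 3 → ℂ | x ≠ 0})) ∈ 𝓝 (0 : ℂ) := by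
      have hc : ContinuousAt (fun ε : ℂ => ((-(2 * ε * c1'), ε * c0) : ℂ × ℂ)) 0 :=
        Continuous.continuousAt (by fun_prop)
      apply hc
      have : (fun ε : ℂ => ((-(2 * ε * c1'), ε * c0) : ℂ × ℂ)) 0 = 0 := by
        simp
      rw [this]
      exact h3
    obtain ⟨ε, hε, hε0⟩ := mem_closure_iff_nhds.1 ((dense_compl_singleton (0 : ℂ)) 0) _ h4
    obtain ⟨x', ⟨hx'U, hx'0⟩, hx'⟩ := hε
    have hA' : Af x' = -(2 * ε * c1') := congrArg Prod.fst hx'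
    have hG' : Gf γ x' = ε * c0 := congrArg Prod.snd hx'
    refine ⟨((c0, c1'), x'), hWU ⟨hc1W, hx'U⟩, ⟨?_, hx'0, ?_⟩, ?_⟩
    · intro h0
      exact hc1' (congrArg Prod.snd h0)
    · simp only
      rw [hA', hG']
      ring
    · simp only
      rw [hA']
      exact neg_ne_zero.2 (mul_ne_zero (mul_ne_zero (by norm_num) hε0) hc1')
  · have hc1 : c1 = 0 := by
      have h1 := (mul_eq_zero.1 hp3).resolve_right hG
      exact (mul_eq_zero.1 h1).resolve_left (by norm_num)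
    have hc0 : c0 ≠ 0 := by
      intro h0
      apply hp1
      rw [h0, hc1]; rfl
    have hd := A_dense x
    have hne : (𝓝[{x : Fin 3 → ℂ | Af x ≠ 0}] x).NeBot := mem_closure_iff_nhdsWithin_neBot.1 hd
    have hAc := Af_cont
    have hGc := Gf_cont γ
    have hG0 : 2 * Gf γ x ≠ 0 := mul_ne_zero (by norm_num) hG
    have hcont : ContinuousAt (fun x' : Fin 3 → ℂ =>
        (((c0, -(c0 * Af x') / (2 * Gf γ x')) : ℂ × ℂ), x')) x := by
      refine ContinuousAt.prodMk (ContinuousAt.prodMk continuousAt_const ?_) continuousAt_id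
      exact ContinuousAt.div (Continuous.continuousAt (by fun_prop))
        (Continuous.continuousAt (by fun_prop)) hG0
    have hval : (((c0, -(c0 * Af x) / (2 * Gf γ x)) : ℂ × ℂ), x) = ((c0, c1), x) := by
      rw [hA, hc1]; simp
    have ht : Tendsto (fun x' : Fin 3 → ℂ =>
        (((c0, -(c0 * Af x') / (2 * Gf γ x')) : ℂ × ℂ), x')) (𝓝[{x : Fin 3 → ℂ | Af x ≠ 0}] x)
        (𝓝 ((c0, c1), x)) := by
      rw [← hval]
      exact hcont.tendsto.mono_left nhdsWithin_le_nhds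
    refine mem_closure_of_tendsto ht ?_
    have hev : ∀ᶠ x' in 𝓝 x, Gf γ x' ≠ 0 := hGc.continuousAt.eventually_ne hG
    have hev2 : ∀ᶠ x' in 𝓝 x, x' ≠ 0 := isOpen_ne.mem_nhds hp2
    filter_upwards [nhdsWithin_le_nhds hev, nhdsWithin_le_nhds hev2, self_mem_nhdsWithin]
      with x' h1 h2 h3
    refine ⟨⟨?_, h2, ?_⟩, h3⟩
    · intro h0
      exact hc0 (congrArg Prod.fst h0)
    · simp only
      field_simp
      ring

theorem connected {γ : ℂ} (hγ0 : γ ≠ 0) (hγ1 : γ ∉ bad1) : (Xs γ).Connected := by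
  obtain ⟨ζ, hζ⟩ := IsAlgClosed.exists_pow_nat_eq (-1 : ℂ) (n := 4) (by norm_num)
  have hζ2 : ζ + 2 ≠ 0 := by
    intro h0
    have : ζ = -2 := by linear_combination h0
    rw [this] at hζ
    norm_num at hζ
  obtain ⟨r, hr⟩ := IsAlgClosed.exists_pow_nat_eq (-2 * γ / (ζ + 2)) (n := 256) (by norm_num)
  have hpt : (((ζ, 1), ![0, r, 1]) : (ℂ × ℂ) × (Fin 3 → ℂ)) ∈ Tp γ := by
    refine ⟨?_, ?_, ?_⟩
    · intro h0
      exact one_ne_zero (congrArg Prod.snd h0)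
    · intro h0
      exact one_ne_zero (congrFun h0 2)
    · change ζ * (0 ^ 240 * 1 ^ 16 + r ^ 256 + 0 ^ 16 * r ^ 240) +
        2 * 1 * (0 ^ 256 + r ^ 256 + γ * 1 ^ 256) = 0
      rw [hr]
      field_simp
      ring
  have hcov := cyclic_cover (c := fun p : (ℂ × ℂ) × (Fin 3 → ℂ) => -(p.1.1 ^ 4 + p.1.2 ^ 4))
    (by fun_prop) (Tp_conn hγ0 hγ1) ⟨_, hpt, by simp [hζ]⟩
  have himg := hcov.image (fun p : ((ℂ × ℂ) × (Fin 3 → ℂ)) × ℂ =>
    ((![p.1.1.1, p.1.1.2, p.2], p.1.2) : (Fin 3 → ℂ) × (Fin 3 → ℂ))) (by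
      refine Continuous.continuousOn (Continuous.prodMk ?_ (by fun_prop))
      refine continuous_pi fun i => ?_
      fin_cases i
      · change Continuous fun p : ((ℂ × ℂ) × (Fin 3 → ℂ)) × ℂ => p.1.1.1
        fun_prop
      · change Continuous fun p : ((ℂ × ℂ) × (Fin 3 → ℂ)) × ℂ => p.1.1.2
        fun_prop
      · change Continuous fun p : ((ℂ × ℂ) × (Fin 3 → ℂ)) × ℂ => p.2
        fun_prop)
  have hset : (fun p : ((ℂ × ℂ) × (Fin 3 → ℂ)) × ℂ =>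
      ((![p.1.1.1, p.1.1.2, p.2], p.1.2) : (Fin 3 → ℂ) × (Fin 3 → ℂ))) ''
      {p | p.1 ∈ Tp γ ∧ p.2 ^ 4 = -(p.1.1.1 ^ 4 + p.1.1.2 ^ 4)} =
      {p : (Fin 3 → ℂ) × (Fin 3 → ℂ) | (Xs γ).Mem p.1 p.2} := by
    ext ⟨b, x⟩
    simp only [Set.mem_ofPred_eq]
    rw [mem_Xs]
    constructor
    · rintro ⟨⟨⟨⟨c0, c1⟩, x'⟩, c2⟩, ⟨⟨h1, h2, h3⟩, h4⟩, h5⟩
      simp only [Prod.mk.injEq] at h5
      obtain ⟨rfl, rfl⟩ := h5
      simp only at h1 h2 h3 h4
      refine ⟨?_, h2, ?_, h3⟩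
      · intro h0
        apply h1
        exact Prod.ext (congrFun h0 0) (congrFun h0 1)
      · change c0 ^ 4 + c1 ^ 4 + c2 ^ 4 = 0
        rw [h4]; ring
    · rintro ⟨hb, hx, hE, hF⟩
      refine ⟨(((b 0, b 1), x), b 2), ⟨⟨?_, hx, hF⟩, ?_⟩, ?_⟩
      · intro h0
        have h1 : b 0 = 0 := congrArg Prod.fst h0
        have h2 : b 1 = 0 := congrArg Prod.snd h0
        apply hb
        funext i
        fin_cases i
        · exact h1
        · exact h2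
        · rw [h1, h2] at hE
          change b 2 = 0
          exact (pow_eq_zero_iff (n := 4) (by norm_num)).1 (by linear_combination hE)
      · simp only
        linear_combination hE
      · refine Prod.ext ?_ rfl
        funext i
        fin_cases i <;> rfl
  refine ⟨?_, ?_⟩
  · refine ⟨(![ζ, 1, 0], ![0, r, 1]), ?_⟩
    change (Xs γ).Mem ![ζ, 1, 0] ![0, r, 1]
    rw [mem_Xs]
    refine ⟨fun h0 => one_ne_zero (congrFun h0 1), hpt.2.1, ?_, hpt.2.2⟩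
    change ζ ^ 4 + 1 ^ 4 + 0 ^ 4 = 0
    rw [hζ]; norm_num
  · rw [← hset]
    exact himg

end Pool.Agent.Q58.CN
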