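import Pool.Agent.W603.LV.Spec
import Pool.Agent.W603.LV.Ram

/-! The function field of the Fermat curve of degree 16. -/

set_option autoImplicit false

open Polynomial FF Pool.Agent.W603.LV IntermediateField

namespace Pool.Agent.Q58.CN

/-- the polynomial `W ^ 16 + (Y ^ 16 + 1)` -/
noncomputable def pol : ℂ[X][X] := X ^ 16 + C (X ^ 16 + 1)

theorem pol_monic : pol.Monic := by
  unfold pol
  exact monic_X_pow_add_C _ (by norm_num)

theorem pol_natDegree : pol.natDegree = 16 := by
  unfold pol
  exact natDegree_X_pow_add_C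

/-- a sixteenth root of `-1` -/
theorem exists_xi : ∃ ξ : ℂ, ξ ^ 16 = -1 := IsAlgClosed.exists_pow_nat_eq (-1) (by norm_num)

theorem pol_irreducible : Irreducible pol := by
  obtain ⟨ξ, hξ⟩ := exists_xi
  have hξ0 : ξ ≠ 0 := by
    rintro rfl
    norm_num at hξ
  have hprime : (Ideal.span {(X - C ξ : ℂ[X])}).IsPrime := by
    rw [Ideal.span_singleton_prime (X_sub_C_ne_zero ξ)]
    exact prime_X_sub_C ξ
  have hdvd : (X - C ξ : ℂ[X]) ∣ X ^ 16 + 1 := by
    rw [dvd_iff_isRoot, IsRoot.def]
    simp [hξ]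
  refine irreducible_of_eisenstein_criterion (P := Ideal.span {(X - C ξ : ℂ[X])}) hprime ?_ ?_ ?_ ?_
    pol_monic.isPrimitive
  · rw [pol_monic.leadingCoeff]
    intro h
    exact hprime.ne_top ((Ideal.eq_top_iff_one _).2 h)
  · intro n hn
    rw [degree_eq_natDegree pol_monic.ne_zero, pol_natDegree] at hn
    have hn' : n < 16 := by exact_mod_cast hn
    rw [Ideal.mem_span_singleton]
    unfold pol
    rw [coeff_add, coeff_X_pow, if_neg (by omega), zero_add, coeff_C]
    split_ifs
    · exact hdvd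
    · exact dvd_zero _
  · rw [degree_eq_natDegree pol_monic.ne_zero, pol_natDegree]
    norm_num
  · rw [Ideal.span_singleton_pow, Ideal.mem_span_singleton]
    unfold pol
    rw [coeff_add, coeff_X_pow, if_neg (by omega), zero_add, coeff_C_zero]
    rintro ⟨q, hq⟩
    have h1 := congrArg (fun p : ℂ[X] => eval ξ (derivative p)) hq
    simp only [derivative_add, derivative_mul, derivative_one, derivative_pow,
      derivative_sub, derivative_X, derivative_C, eval_add, eval_mul, eval_pow, eval_X, eval_C,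
      eval_sub, sub_self] at h1
    norm_num at h1
    exact hξ0 h1

theorem exists_field : ∃ (K : Type) (_ : Field K) (_ : Algebra ℂ K) (y w : K),
    w ^ 16 + (y ^ 16 + 1) = 0 ∧ Transcendental ℂ y ∧ FiniteDimensional ℂ⟮y⟯ K ∧
    Module.finrank ℂ⟮y⟯ K = 16 ∧ IntermediateField.adjoin ℂ {y, w} = ⊤ ∧
    ∀ G : ℂ[X][X], E2 y w G = 0 → pol ∣ G := by
  set φ : ℂ[X] →+* RatFunc ℂ := algebraMap ℂ[X] (RatFunc ℂ) with hφ
  set F : (RatFunc ℂ)[X] := pol.map φ with hF
  have hFm : F.Monic := pol_monic.map _
  have hFi : Irreducible F :=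
    (pol_monic.irreducible_iff_irreducible_map_fraction_map).1 pol_irreducible
  have : Fact (Irreducible F) := ⟨hFi⟩
  have hFd : F.natDegree = 16 := by rw [hF, pol_monic.natDegree_map, pol_natDegree]
  set K := AdjoinRoot F with hK
  let y : K := algebraMap (RatFunc ℂ) K RatFunc.X
  let w : K := AdjoinRoot.root F
  have hy : Transcendental ℂ y := by
    have h1 : Transcendental ℂ (RatFunc.X : RatFunc ℂ) := RatFunc.transcendental_X
    exact (transcendental_algebraMap_iff (algebraMap (RatFunc ℂ) K).injective).2 h1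
  have hyφ : ∀ p : ℂ[X], aeval y p = algebraMap (RatFunc ℂ) K (φ p) := by
    intro p
    have h1 : y = algebraMap (RatFunc ℂ) K (φ X) := by
      rw [hφ, RatFunc.algebraMap_X]
    rw [h1, aeval_algebraMap_apply]
    congr 1
    rw [hφ, aeval_algebraMap_apply, aeval_X_left_apply]
  have hE : ∀ G : ℂ[X][X], E2 y w G = AdjoinRoot.mk F (G.map φ) := by
    intro G
    rw [E2_apply, ← AdjoinRoot.aeval_eq, aeval_def, eval₂_map]
    congr 1
    ext p
    · simp only [RingHom.coe_comp, Function.comp_apply]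
      exact hyφ _
    · simp only [RingHom.coe_comp, Function.comp_apply]
      exact hyφ _
  have hpol0 : w ^ 16 + (y ^ 16 + 1) = 0 := by
    have h1 : E2 y w pol = 0 := by
      rw [hE, ← hF, AdjoinRoot.mk_self]
    unfold pol at h1
    rw [E2_apply, eval₂_add, eval₂_X_pow, eval₂_C] at h1
    simpa using h1
  have hfinK : FiniteDimensional (RatFunc ℂ) K := hFm.finite_adjoinRoot
  have hrk : Module.finrank (RatFunc ℂ) K = 16 := by
    rw [← hFd]
    exact finrank_quotient_span_eq_natDegree
  have hmap : ∀ r : RatFunc ℂ, algebraMap (RatFunc ℂ) K r = aeval y r.num / aeval y r.denom := by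
    intro r
    rw [hyφ, hyφ, ← map_div₀, hφ, RatFunc.num_div_denom]
  have hrk2 : Module.finrank ℂ⟮y⟯ K = 16 := by
    rw [← hrk]
    symm
    refine Algebra.finrank_eq_of_equiv_equiv (RatFunc.algEquivOfTranscendental y hy).toRingEquiv
      (RingEquiv.refl K) ?_
    ext r
    simp only [RingHom.coe_comp, Function.comp_apply]
    have h1 := RatFunc.algEquivOfTranscendental_apply y hy r
    change ((RatFunc.algEquivOfTranscendental y hy r : ℂ⟮y⟯) : K) = algebraMap (RatFunc ℂ) K r
    rw [hmap]
    exact h1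
  have hfin2 : FiniteDimensional ℂ⟮y⟯ K := Module.finite_of_finrank_pos (by rw [hrk2]; norm_num)
  refine ⟨K, inferInstance, inferInstance, y, w, hpol0, hy, hfin2, hrk2, ?_, ?_⟩
  · rw [eq_top_iff]
    rintro f -
    obtain ⟨p, rfl⟩ := AdjoinRoot.mk_surjective f
    have h1 : AdjoinRoot.mk F p = ∑ i ∈ p.support, algebraMap (RatFunc ℂ) K (p.coeff i) * w ^ i := by
      rw [← AdjoinRoot.aeval_eq, aeval_def, eval₂_eq_sum, Polynomial.sum]
    rw [h1]
    have hyA : y ∈ IntermediateField.adjoin ℂ {y, w} :=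
      IntermediateField.subset_adjoin _ _ (by simp)
    have hwA : w ∈ IntermediateField.adjoin ℂ {y, w} :=
      IntermediateField.subset_adjoin _ _ (by simp)
    have hpA : ∀ q : ℂ[X], aeval y q ∈ IntermediateField.adjoin ℂ {y, w} := by
      intro q
      rw [aeval_eq_sum_range]
      refine sum_mem fun i _ => ?_
      rw [Algebra.smul_def]
      exact mul_mem (IntermediateField.algebraMap_mem _ _) (pow_mem hyA i)
    refine sum_mem fun i _ => mul_mem ?_ (pow_mem hwA i)
    rw [hmap]
    exact div_mem (hpA _) (hpA _)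
  · intro G hG
    rw [hE, AdjoinRoot.mk_eq_zero, hF] at hG
    exact (map_dvd_map φ (RatFunc.algebraMap_injective ℂ) pol_monic).1 hG

end Pool.Agent.Q58.CN
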