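import Pool.Agent.Q58.CN.Sum
import Pool.Agent.TH144.CN.Surf

/-! The special fibre and its function field. -/

set_option autoImplicit false

open FF Pool.Agent.W603.LV Pool.Agent.TH144.CN

namespace Pool.Agent.Q58.CN

section general

variable {σ : Type} {K : Type} [Field K] [Algebra ℂ K]

theorem ge_mva (P : FF.Place ℂ K) {f : σ → K} (hf : ∀ j, Ge P 0 (f j))
    (H : MvPolynomial σ ℂ) : Ge P 0 (MvPolynomial.aeval f H) := by
  induction H using MvPolynomial.induction_on with
  | C a => rw [MvPolynomial.aeval_C]; exact Ge.const a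
  | add p q hp hq => rw [map_add]; exact hp.add hq
  | mul_X p j hp => rw [map_mul, MvPolynomial.aeval_X]; simpa using hp.mul (hf j)

theorem red_mva (P : FF.Place ℂ K) {f : σ → K} (hf : ∀ j, Ge P 0 (f j)) {c : σ → ℂ}
    (hc : ∀ j, Ge P 1 (f j - algebraMap ℂ K (c j))) (H : MvPolynomial σ ℂ) :
    Ge P 1 (MvPolynomial.aeval f H - algebraMap ℂ K (MvPolynomial.aeval c H)) := by
  induction H using MvPolynomial.induction_on with
  | C a =>
    rw [MvPolynomial.aeval_C, MvPolynomial.aeval_C, Algebra.algebraMap_self_apply, sub_self]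
    exact Ge.zero
  | add p q hp hq =>
    rw [map_add, map_add, map_add, add_sub_add_comm]; exact hp.add hq
  | mul_X p j hp =>
    rw [map_mul, MvPolynomial.aeval_X, map_mul, MvPolynomial.aeval_X, map_mul]
    have e : MvPolynomial.aeval f p * f j -
        algebraMap ℂ K (MvPolynomial.aeval c p) * algebraMap ℂ K (c j) =
        MvPolynomial.aeval f p * (f j - algebraMap ℂ K (c j)) +
          (MvPolynomial.aeval f p - algebraMap ℂ K (MvPolynomial.aeval c p)) *
            algebraMap ℂ K (c j) := by ring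
    rw [e]
    refine Ge.add ?_ ?_
    · simpa using (ge_mva P hf p).mul (hc j)
    · simpa using hp.mul (Ge.const (P := P) (c j))

end general

/-- scaling a bihomogeneous polynomial -/
theorem bihom_smul {L : Type} [Field L] [Algebra ℂ L] {G : BiPoly} {d e : ℕ} (h : BiHom G d e)
    (p q : Fin 3 → L) (s t : L) :
    MvPolynomial.aeval (Sum.elim (fun i => s * p i) (fun i => t * q i)) G =
      s ^ d * t ^ e * MvPolynomial.aeval (Sum.elim p q) G := by
  rw [MvPolynomial.aeval_def, MvPolynomial.aeval_def, MvPolynomial.eval₂_eq',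
    MvPolynomial.eval₂_eq', Finset.mul_sum]
  refine Finset.sum_congr rfl fun m hm => ?_
  have hw := h (MvPolynomial.mem_support_iff.1 hm)
  have h1 : ∑ i : Fin 3, m (Sum.inl i) = d ∧ ∑ i : Fin 3, m (Sum.inr i) = e := by
    rw [Finsupp.weight_apply, Finsupp.sum_fintype _ _ (by simp), Fintype.sum_sum_type] at hw
    simp only [Sum.elim_inl, Sum.elim_inr, Prod.smul_mk, smul_eq_mul, mul_one, mul_zero] at hw
    have h2 := congrArg Prod.fst hw
    have h3 := congrArg Prod.snd hw
    simp only [Prod.fst_add, Prod.snd_add, Prod.fst_sum, Prod.snd_sum, Finset.sum_const_zero,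
      add_zero, zero_add] at h2 h3
    exact ⟨h2, h3⟩
  rw [Fintype.prod_sum_type, Fintype.prod_sum_type]
  simp only [Sum.elim_inl, Sum.elim_inr, mul_pow, Finset.prod_mul_distrib]
  rw [Finset.prod_pow_eq_pow_sum, Finset.prod_pow_eq_pow_sum, h1.1, h1.2]
  ring

/-- the special fibre -/
noncomputable def Zs (ζ : ℂ) : ClosedSet where
  eqs := {B 1, B 2 - MvPolynomial.C ζ * B 0, Ap}
  hom := by
    rintro G (rfl | rfl | rfl)
    · exact ⟨_, _, B_hom 1⟩
    · refine ⟨1, 0, ?_⟩
      have h1 := (B_hom 2)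
      have h2 := (C_hom (-ζ)).mul (B_hom 0)
      have h3 := h1.add h2
      have e : B 2 - MvPolynomial.C ζ * B 0 = B 2 + MvPolynomial.C (-ζ) * B 0 := by
        rw [MvPolynomial.C_neg]; ring
      rw [e]
      exact h3
    · exact ⟨_, _, Ap_hom⟩

theorem mem_Zs {L : Type} [Field L] [Algebra ℂ L] {ζ : ℂ} {b x : Fin 3 → L} :
    (Zs ζ).Mem b x ↔ b ≠ 0 ∧ x ≠ 0 ∧ b 1 = 0 ∧ b 2 = algebraMap ℂ L ζ * b 0 ∧
      x 0 ^ 240 * x 2 ^ 16 + x 1 ^ 256 + x 0 ^ 16 * x 1 ^ 240 = 0 := by
  unfold ClosedSet.Mem Zs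
  simp only [Set.mem_insert_iff, Set.mem_singleton_iff, forall_eq_or_imp, forall_eq, aeval_Ap]
  simp [B, sub_eq_zero]

section ff

variable {K : Type} [Field K] [Algebra ℂ K] {y w : K}

theorem bc0 {ζ : ℂ} : bc K ζ 0 = 1 := by simp [bc]

theorem bc1 {ζ : ℂ} : bc K ζ 1 = 0 := by simp [bc]

theorem bc2 {ζ : ℂ} : bc K ζ 2 = algebraMap ℂ K ζ := by simp [bc]

theorem zs_mem {ζ : ℂ} (h : w ^ 16 + (y ^ 16 + 1) = 0) : (Zs ζ).Mem (bc K ζ) (xc y w) := by
  rw [mem_Zs]
  refine ⟨fun h0 => ?_, fun h0 => ?_, bc1, by rw [bc2, bc0, mul_one], ?_⟩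
  · have := congrFun h0 0
    rw [bc0] at this
    exact one_ne_zero this
  · have := congrFun h0 0
    exact one_ne_zero this
  · change (1 : K) ^ 240 * (y ^ 15 * w) ^ 16 + y ^ 256 + 1 ^ 16 * y ^ 240 = 0
    linear_combination y ^ 240 * h

theorem phi_aeval {σ R L : Type} [CommRing R] [Algebra ℂ R] [CommRing L] [Algebra ℂ L]
    (φ : R →+* L) (hφ : ∀ c : ℂ, φ (algebraMap ℂ R c) = algebraMap ℂ L c) (f : σ → R)
    (G : MvPolynomial σ ℂ) :
    φ (MvPolynomial.aeval f G) = MvPolynomial.aeval (fun i => φ (f i)) G := by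
  induction G using MvPolynomial.induction_on with
  | C a => rw [MvPolynomial.aeval_C, MvPolynomial.aeval_C, hφ]
  | add p q hp hq => rw [map_add, map_add, map_add, hp, hq]
  | mul_X p j hp => rw [map_mul, map_mul, map_mul, hp, MvPolynomial.aeval_X, MvPolynomial.aeval_X]

theorem E2_alg {L : Type} [Field L] [Algebra ℂ L] (t u : L) (c : ℂ) :
    E2 t u (algebraMap ℂ (Polynomial (Polynomial ℂ)) c) = algebraMap ℂ L c := by
  have h1 : algebraMap ℂ (Polynomial (Polynomial ℂ)) c = Polynomial.C (Polynomial.C c) := rfl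
  rw [E2_apply, h1, Polynomial.eval₂_C]
  simp

theorem E2_coords {L : Type} [Field L] [Algebra ℂ L] (t u : L) (ζ : ℂ) (G : BiPoly) :
    E2 t u (MvPolynomial.aeval (Sum.elim
      (fun i => algebraMap ℂ (Polynomial (Polynomial ℂ)) (![1, 0, ζ] i))
      ![1, Polynomial.C Polynomial.X, (Polynomial.C Polynomial.X) ^ 15 * Polynomial.X]) G) =
      MvPolynomial.aeval (Sum.elim (bc L ζ) (xc t u)) G := by
  rw [phi_aeval _ (E2_alg t u)]
  congr 1
  have : (fun i : Fin 3 ⊕ Fin 3 => E2 t u (Sum.elim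
      (fun i => algebraMap ℂ (Polynomial (Polynomial ℂ)) (![1, 0, ζ] i))
      ![1, Polynomial.C Polynomial.X, (Polynomial.C Polynomial.X) ^ 15 * Polynomial.X] i)) =
      Sum.elim (bc L ζ) (xc t u) := by
    funext i
    rcases i with i | i
    · exact E2_alg t u _
    · have hX : E2 t u (Polynomial.C (Polynomial.X : Polynomial ℂ)) = t := by
        rw [E2_apply, Polynomial.eval₂_C]; simp
      have hY : E2 t u (Polynomial.X : Polynomial (Polynomial ℂ)) = u := by
        rw [E2_apply, Polynomial.eval₂_X]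
      fin_cases i
      · exact map_one _
      · exact hX
      · change E2 t u ((Polynomial.C Polynomial.X : Polynomial (Polynomial ℂ)) ^ 15 *
          Polynomial.X) = t ^ 15 * u
        rw [map_mul, map_pow, hX, hY]
  rw [this]

theorem E2_pol {L : Type} [Field L] [Algebra ℂ L] (t u : L) :
    E2 t u pol = u ^ 16 + (t ^ 16 + 1) := by
  unfold pol
  rw [E2_apply, Polynomial.eval₂_add, Polynomial.eval₂_X_pow, Polynomial.eval₂_C]
  simp

variable [IsFF ℂ K]

theorem van_left {ζ : ℂ} (h : w ^ 16 + (y ^ 16 + 1) = 0) (G : BiPoly)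
    (hG : ∀ p q : Fin 3 → ℂ, (Zs ζ).Mem p q → MvPolynomial.aeval (Sum.elim p q) G = 0) :
    MvPolynomial.aeval (Sum.elim (bc K ζ) (xc y w)) G = 0 := by
  classical
  by_contra hne
  set g := MvPolynomial.aeval (Sum.elim (bc K ζ) (xc y w)) G with hg
  obtain ⟨T, hT⟩ := exists_supp (k := ℂ) (Finset.univ : Finset (Fin 3)) ![y, w, g]
  obtain ⟨P, hP⟩ := exists_place_not_mem (k := ℂ) (K := K) T
  have hPy : P.ord y = 0 := by
    by_contra hcon; exact hP (hT 0 (Finset.mem_univ _) P hcon)
  have hPw : P.ord w = 0 := by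
    by_contra hcon; exact hP (hT 1 (Finset.mem_univ _) P hcon)
  have hPg : P.ord g = 0 := by
    by_contra hcon; exact hP (hT 2 (Finset.mem_univ _) P hcon)
  have hyG : Ge P 0 y := Or.inr hPy.ge
  have hwG : Ge P 0 w := Or.inr hPw.ge
  obtain ⟨cy, hcy⟩ := exists_const P hyG
  obtain ⟨cw, hcw⟩ := exists_const P hwG
  set q : Fin 3 → ℂ := ![1, cy, cy ^ 15 * cw] with hq
  have h15 : Ge P 1 (y ^ 15 * w - algebraMap ℂ K (cy ^ 15 * cw)) := by
    have := red_mva (σ := Fin 2) P (f := ![y, w]) (c := ![cy, cw]) (by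
      intro j; fin_cases j
      · exact hyG
      · exact hwG) (by
      intro j; fin_cases j
      · exact hcy
      · exact hcw) (MvPolynomial.X 0 ^ 15 * MvPolynomial.X 1)
    simpa using this
  have hf : ∀ j, Ge P 0 (Sum.elim (bc K ζ) (xc y w) j) := by
    rintro (j | j)
    · exact Ge.const _
    · fin_cases j
      · exact Ge.one
      · exact hyG
      · have := (hyG.pow 15).mul hwG
        exact this.mono (by omega)
  have hc : ∀ j, Ge P 1 (Sum.elim (bc K ζ) (xc y w) j -
      algebraMap ℂ K (Sum.elim ![1, 0, ζ] q j)) := by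
    rintro (j | j)
    · left
      exact sub_self _
    · fin_cases j
      · left
        change (1 : K) - algebraMap ℂ K 1 = 0
        rw [map_one, sub_self]
      · exact hcy
      · exact h15
  have hred := red_mva P hf hc
  have hmem : (Zs ζ).Mem ![1, 0, ζ] q := by
    refine ⟨fun h0 => ?_, fun h0 => ?_, fun F hF => ?_⟩
    · exact one_ne_zero (congrFun h0 0)
    · exact one_ne_zero (congrFun h0 0)
    · have h1 := hred F
      rw [(zs_mem h).2.2 F hF, zero_sub] at h1
      have h2 := h1.neg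
      rw [neg_neg] at h2
      exact const_zero P h2
  have h1 := hred G
  rw [hG _ _ hmem, map_zero, sub_zero, ← hg] at h1
  have h2 := h1.resolve_left hne
  omega

theorem van_right {ζ : ℂ} (h : w ^ 16 + (y ^ 16 + 1) = 0) (ht : Transcendental ℂ y) (hw : w ≠ 0)
    (hker : ∀ G : Polynomial (Polynomial ℂ), E2 y w G = 0 → pol ∣ G) {G : BiPoly} {d e : ℕ}
    (hd : BiHom G d e) (hG : MvPolynomial.aeval (Sum.elim (bc K ζ) (xc y w)) G = 0)
    {p q : Fin 3 → ℂ} (hpq : (Zs ζ).Mem p q) : MvPolynomial.aeval (Sum.elim p q) G = 0 := by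
  have hy0 : y ≠ 0 := by
    rintro rfl
    exact ht isAlgebraic_zero
  rw [mem_Zs] at hpq
  obtain ⟨hp0, hq0, hp1, hp2, hA⟩ := hpq
  have hpe : p = fun i => p 0 * (![1, 0, ζ] : Fin 3 → ℂ) i := by
    funext i
    fin_cases i
    · change p 0 = p 0 * 1
      rw [mul_one]
    · change p 1 = p 0 * 0
      rw [hp1, mul_zero]
    · change p 2 = p 0 * ζ
      rw [hp2, mul_comm]; rfl
  -- it is enough to treat normalised points
  have key : ∀ (t : ℂ) (q' : Fin 3 → ℂ), (∀ i, q i = t * q' i) →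
      MvPolynomial.aeval (Sum.elim (![1, 0, ζ] : Fin 3 → ℂ) q') G = 0 →
      MvPolynomial.aeval (Sum.elim p q) G = 0 := by
    intro t q' hq' h0
    have e1 : q = fun i => t * q' i := funext hq'
    rw [hpe, e1]
    rw [bihom_smul hd, h0, mul_zero]
  have hbc : bc ℂ ζ = (![1, 0, ζ] : Fin 3 → ℂ) := rfl
  by_cases hq00 : q 0 = 0
  · -- the point at infinity
    have hq1 : q 1 = 0 := by
      have : q 1 ^ 256 = 0 := by
        rw [hq00] at hA
        linear_combination hA
      exact pow_eq_zero_iff (by norm_num) |>.1 this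
    refine key (q 2) ![0, 0, 1] (fun i => ?_) ?_
    · fin_cases i
      · change q 0 = q 2 * 0
        rw [hq00, mul_zero]
      · change q 1 = q 2 * 0
        rw [hq1, mul_zero]
      · change q 2 = q 2 * 1
        rw [mul_one]
    · obtain ⟨P, hP⟩ : ∃ P : FF.Place ℂ K, P.ord y < 0 := by
        obtain ⟨S, hS, hS2⟩ := poles (k := ℂ) ht
        have h2 := IsFF.finite ht
        have h3 : 0 < Module.finrank (IntermediateField.adjoin ℂ {y}) K := Module.finrank_pos
        rw [← hS2] at h3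
        obtain ⟨v, hv, -⟩ := Finset.exists_ne_zero_of_sum_ne_zero h3.ne'
        exact ⟨v, (hS v).1 hv⟩
      have hPw := w_lt h hy0 hP
      have hx20 : y ^ 15 * w ≠ 0 := mul_ne_zero (pow_ne_zero _ hy0) hw
      have ho : P.ord (y ^ 15 * w)⁻¹ = -(16 * P.ord y) := by
        rw [P.ord_inv, P.ord_mul (pow_ne_zero _ hy0) hw, P.ord_pow, hPw]
        push_cast; ring
      have h0 : MvPolynomial.aeval (Sum.elim (fun i => 1 * bc K ζ i)
          (fun i => (y ^ 15 * w)⁻¹ * xc y w i)) G = 0 := by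
        rw [bihom_smul hd, hG, mul_zero]
      have hc : ∀ j, Ge P 1 (Sum.elim (fun i => 1 * bc K ζ i)
          (fun i => (y ^ 15 * w)⁻¹ * xc y w i) j -
          algebraMap ℂ K (Sum.elim (![1, 0, ζ] : Fin 3 → ℂ) ![0, 0, 1] j)) := by
        rintro (j | j)
        · left
          change 1 * bc K ζ j - bc K ζ j = 0
          rw [one_mul, sub_self]
        · fin_cases j
          · change Ge P 1 ((y ^ 15 * w)⁻¹ * 1 - algebraMap ℂ K 0)
            rw [mul_one, map_zero, sub_zero]
            right; omega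
          · change Ge P 1 ((y ^ 15 * w)⁻¹ * y - algebraMap ℂ K 0)
            rw [map_zero, sub_zero]
            right
            rw [P.ord_mul (inv_ne_zero hx20) hy0, ho]
            omega
          · left
            change (y ^ 15 * w)⁻¹ * (y ^ 15 * w) - algebraMap ℂ K 1 = 0
            rw [inv_mul_cancel₀ hx20, map_one, sub_self]
      have hf : ∀ j, Ge P 0 (Sum.elim (fun i => 1 * bc K ζ i)
          (fun i => (y ^ 15 * w)⁻¹ * xc y w i) j) := by
        intro j
        have h1 := ((hc j).mono (by norm_num : (0 : ℤ) ≤ 1)).add (Ge.const (P := P)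
          (Sum.elim (![1, 0, ζ] : Fin 3 → ℂ) ![0, 0, 1] j))
        rwa [sub_add_cancel] at h1
      have h1 := red_mva P hf hc G
      rw [h0, zero_sub] at h1
      have h2 := h1.neg
      rw [neg_neg] at h2
      exact const_zero P h2
  · -- finite points
    obtain ⟨η, w0, h1, h2, h3⟩ : ∃ η w0 : ℂ, q 1 = q 0 * η ∧ q 2 = q 0 * (η ^ 15 * w0) ∧
        w0 ^ 16 + (η ^ 16 + 1) = 0 := by
      by_cases hq1 : q 1 = 0
      · obtain ⟨ξ, hξ⟩ := exists_xi
        refine ⟨0, ξ, by rw [hq1, mul_zero], ?_, by rw [hξ]; norm_num⟩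
        rw [hq1] at hA
        have h4 : q 0 ^ 240 * q 2 ^ 16 = 0 := by linear_combination hA
        have h5 := (mul_eq_zero.1 h4).resolve_left (pow_ne_zero _ hq00)
        rw [pow_eq_zero_iff (by norm_num) |>.1 h5]
        ring
      · refine ⟨q 1 / q 0, q 2 / q 0 / (q 1 / q 0) ^ 15, ?_, ?_, ?_⟩
        · field_simp
        · field_simp
        · field_simp
          linear_combination hA
    refine key (q 0) (xc η w0) (fun i => ?_) ?_
    · fin_cases i
      · change q 0 = q 0 * 1
        rw [mul_one]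
      · exact h1
      · exact h2
    · obtain ⟨Q, hQ⟩ := hker _ ((E2_coords y w ζ G).trans hG)
      rw [← hbc, ← E2_coords η w0 ζ G, hQ, map_mul, E2_pol, h3, zero_mul]

theorem functionField {ζ : ℂ} (h : w ^ 16 + (y ^ 16 + 1) = 0) (ht : Transcendental ℂ y)
    (hw : w ≠ 0) (hadj : IntermediateField.adjoin ℂ {y, w} = ⊤)
    (hker : ∀ G : Polynomial (Polynomial ℂ), E2 y w G = 0 → pol ∣ G) :
    (Zs ζ).FunctionField K (bc K ζ) (xc y w) where
  mem := zs_mem h
  van G d e hd := ⟨fun h0 p q hpq => van_right h ht hw hker hd h0 hpq, van_left h G⟩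
  gen := by
    have hy0 : y ≠ 0 := by
      rintro rfl
      exact ht isAlgebraic_zero
    rw [eq_top_iff, ← hadj, IntermediateField.adjoin_le_iff]
    have hyA : y ∈ IntermediateField.adjoin ℂ ({f | ∃ i j, bc K ζ j ≠ 0 ∧ f = bc K ζ i / bc K ζ j} ∪
        {f | ∃ i j, xc y w j ≠ 0 ∧ f = xc y w i / xc y w j}) := by
      apply IntermediateField.subset_adjoin
      right
      refine ⟨1, 0, one_ne_zero, ?_⟩
      change y = y / 1
      rw [div_one]
    have hzA : y ^ 15 * w ∈ IntermediateField.adjoin ℂ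
        ({f | ∃ i j, bc K ζ j ≠ 0 ∧ f = bc K ζ i / bc K ζ j} ∪
        {f | ∃ i j, xc y w j ≠ 0 ∧ f = xc y w i / xc y w j}) := by
      apply IntermediateField.subset_adjoin
      right
      refine ⟨2, 0, one_ne_zero, ?_⟩
      change y ^ 15 * w = y ^ 15 * w / 1
      rw [div_one]
    rintro f (rfl | rfl)
    · exact hyA
    · have := div_mem hzA (pow_mem hyA 15)
      rwa [mul_div_cancel_left₀ _ (pow_ne_zero _ hy0)] at this

end ff

end Pool.Agent.Q58.CN
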