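import Pool.Agent.Q58.CN.Field
import Pool.Agent.TH144.CN.Defs

/-! The local terms of the two formulas for the intersection number of a curve. -/

set_option autoImplicit false

open Polynomial FF Pool.Agent.W603.LV Pool.Agent.TH144.CN

namespace Pool.Agent.Q58.CN

variable {K : Type} [Field K] [Algebra ℂ K]

/-- the two notions of places agree -/
def toFF : TH144.CN.Place K ≃ FF.Place ℂ K where
  toFun P := ⟨P.ord, P.ord_zero, P.ord_mul, P.ord_add, P.ord_const, P.surj⟩
  invFun P := ⟨P.ord, P.ord_zero, P.ord_mul, P.ord_add, P.ord_const, P.surj⟩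
  left_inv _ := rfl
  right_inv _ := rfl

theorem toFF_ord (P : TH144.CN.Place K) : (toFF P).ord = P.ord := rfl

theorem affine_ge (P : TH144.CN.Place K) {a : Fin 3 → K} {f : K} (hf : f ∈ affineCoords P a) :
    Ge (toFF P) 0 f := by
  obtain ⟨i, j, hi, hmin, rfl⟩ := hf
  by_cases hj : a j = 0
  · left; rw [hj, zero_div]
  · right
    rw [(toFF P).ord_div hj hi, toFF_ord]
    have := hmin j hj
    omega

variable [IsFF ℂ K]

theorem vectorOrder_eq (P : TH144.CN.Place K) {D : Derivation ℂ K K} (hD : D ≠ 0) :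
    vectorOrder P D = vo (toFF P) D := by
  unfold vectorOrder
  have : {m : ℤ | ∃ t : K, P.ord t = 1 ∧ P.ord (D t) = m} = {vo (toFF P) D} := by
    ext m
    simp only [Set.mem_ofPred_eq, Set.mem_singleton_iff]
    constructor
    · rintro ⟨t, ht, rfl⟩
      exact vo_eq (toFF P) (π := t) ht hD
    · rintro rfl
      exact ⟨unif (toFF P), ord_unif (toFF P), rfl⟩
  rw [this, csInf_singleton]

/-- The two local terms agree. -/
theorem tangentOrder_eq (P : TH144.CN.Place K) {D : Derivation ℂ K K} (hD : D ≠ 0)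
    {b x : Fin 3 → K} (hne : ∃ f ∈ affineCoords P b ∪ affineCoords P x, D f ≠ 0) :
    tangentOrder P b x D = vectorOrder P D + ((branchMult P b x : ℤ) - 1) := by
  rw [vectorOrder_eq P hD]
  have hreg : ∀ f ∈ affineCoords P b ∪ affineCoords P x, Ge (toFF P) 0 f := by
    rintro f (hf | hf) <;> exact affine_ge P hf
  set M : Set ℕ := {m : ℕ | 0 < m ∧ ∃ f ∈ affineCoords P b ∪ affineCoords P x, ∃ c : ℂ,
    f - algebraMap ℂ K c ≠ 0 ∧ P.ord (f - algebraMap ℂ K c) = m} with hM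
  set T : Set ℤ := {m : ℤ | ∃ f ∈ affineCoords P b ∪ affineCoords P x, D f ≠ 0 ∧ P.ord (D f) = m}
    with hT
  have h1 : ∀ m ∈ T, ∃ n ∈ M, m = n - 1 + vo (toFF P) D := by
    rintro m ⟨f, hf, hDf, rfl⟩
    obtain ⟨c, hc⟩ := exists_const (toFF P) (hreg f hf)
    have hc0 : f - algebraMap ℂ K c ≠ 0 := by
      intro h0
      apply hDf
      rw [sub_eq_zero.1 h0, Derivation.map_algebraMap]
    have hc1 := hc.resolve_left hc0
    rw [toFF_ord] at hc1
    have h2 := (ord_der (toFF P) hD (f := f - algebraMap ℂ K c) (by rw [toFF_ord]; omega)).2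
    rw [map_sub, Derivation.map_algebraMap, sub_zero, toFF_ord] at h2
    refine ⟨(P.ord (f - algebraMap ℂ K c)).toNat, ⟨by omega, f, hf, c, hc0, by omega⟩, ?_⟩
    rw [h2]
    omega
  have h2 : ∀ n ∈ M, ((n : ℤ) - 1 + vo (toFF P) D) ∈ T := by
    rintro n ⟨hn, f, hf, c, hc0, hc⟩
    have h3 := ord_der (toFF P) hD (f := f - algebraMap ℂ K c) (by rw [toFF_ord]; omega)
    rw [map_sub, Derivation.map_algebraMap, sub_zero, toFF_ord] at h3
    exact ⟨f, hf, h3.1, by rw [h3.2, hc]⟩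
  have hMne : M.Nonempty := by
    obtain ⟨f, hf, hDf⟩ := hne
    obtain ⟨n, hn, -⟩ := h1 _ ⟨f, hf, hDf, rfl⟩
    exact ⟨n, hn⟩
  have h3 : IsLeast T (((sInf M : ℕ) : ℤ) - 1 + vo (toFF P) D) := by
    refine ⟨h2 _ (Nat.sInf_mem hMne), ?_⟩
    intro m hm
    obtain ⟨n, hn, rfl⟩ := h1 m hm
    have := Nat.sInf_le hn
    have h4 : ((sInf M : ℕ) : ℤ) ≤ n := by exact_mod_cast this
    linarith
  have h4 : tangentOrder P b x D = ((sInf M : ℕ) : ℤ) - 1 + vo (toFF P) D := h3.csInf_eq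
  have h5 : branchMult P b x = sInf M := rfl
  rw [h4, h5]
  ring

section fermat

variable {y w : K}

omit [IsFF ℂ K] in
theorem w_ge {P : FF.Place ℂ K} (h : w ^ 16 + (y ^ 16 + 1) = 0) (hw : w ≠ 0)
    (hy : Ge P 0 y) : 0 ≤ P.ord w := by
  have h1 : Ge P 0 (w ^ 16) := by
    have e : w ^ 16 = -(y ^ 16 + 1) := by linear_combination h
    rw [e]
    have := (hy.pow 16)
    simp only [mul_zero] at this
    exact (this.add Ge.one).neg
  have h2 := h1.resolve_left (pow_ne_zero _ hw)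
  rw [P.ord_pow] at h2
  omega

omit [IsFF ℂ K] in
theorem w_lt {P : FF.Place ℂ K} (h : w ^ 16 + (y ^ 16 + 1) = 0) (hy0 : y ≠ 0)
    (hy : P.ord y < 0) : P.ord w = P.ord y := by
  have e : w ^ 16 = -(y ^ 16) + (-1) := by linear_combination h
  have h1 : P.ord (-(y ^ 16) + (-1)) = P.ord (-(y ^ 16)) := by
    refine (P.ord_add_eq (neg_ne_zero.2 (pow_ne_zero _ hy0)) (by norm_num) ?_).2
    rw [P.ord_neg, P.ord_neg, P.ord_one, P.ord_pow]
    push_cast
    omega
  rw [← e, P.ord_neg, P.ord_pow, P.ord_pow] at h1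
  push_cast at h1
  omega

end fermat

end Pool.Agent.Q58.CN
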