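import Pool.Agent.TH144.CN.Surf

/-! Smoothness of the surface, outside a finite set of parameters. -/

set_option autoImplicit false

open MvPolynomial
open Pool.Agent.TH144.CN

namespace Pool.Agent.Q58.CN

/-- the exceptional parameters for the base points of the pencil -/
def bad1 : Set ℂ := (fun V : ℂ => -(1 + V ^ 16) / (-V ^ 15 * (V + 1)) ^ 16) ''
  {V | 15 * V ^ 17 + 14 * V ^ 16 + 16 * V + 15 = 0}

/-- the first exceptional parameters for the branch points -/
noncomputable def bad2 : Set ℂ := (fun t : ℂ => -1 / (16 * t * (-16 * t / 15) ^ 15)) '' {t | t ^ 4 = -16}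

/-- the second exceptional parameters for the branch points -/
noncomputable def bad3 : Set ℂ :=
  (fun t : ℂ => -1 / (16 * t * (-((-15 / (16 * (1 + t))) ^ 15 + 16 * t) / 15) ^ 15)) ''
  {t | t ^ 4 = -16}

theorem bad_finite : (bad1 ∪ bad2 ∪ bad3).Finite := by
  have h1 : {V : ℂ | 15 * V ^ 17 + 14 * V ^ 16 + 16 * V + 15 = 0}.Finite := by
    have hp : (15 * Polynomial.X ^ 17 + 14 * Polynomial.X ^ 16 + 16 * Polynomial.X + 15 :
        Polynomial ℂ) ≠ 0 := by
      intro h0
      have := congrArg (Polynomial.eval 0) h0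
      simp at this
    refine (Polynomial.finite_setOfPred_isRoot hp).subset fun V hV => ?_
    simp only [Set.mem_ofPred_eq] at hV ⊢
    rw [Polynomial.IsRoot.def]
    simp only [Polynomial.eval_add, Polynomial.eval_mul, Polynomial.eval_pow, Polynomial.eval_X,
      Polynomial.eval_ofNat]
    exact hV
  have h2 : {t : ℂ | t ^ 4 = -16}.Finite := by
    have hp : (Polynomial.X ^ 4 + 16 : Polynomial ℂ) ≠ 0 := by
      intro h0
      have := congrArg (Polynomial.eval 0) h0
      simp at this
    refine (Polynomial.finite_setOfPred_isRoot hp).subset fun V hV => ?_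
    simp only [Set.mem_ofPred_eq] at hV ⊢
    rw [Polynomial.IsRoot.def]
    simp only [Polynomial.eval_add, Polynomial.eval_pow, Polynomial.eval_X,
      Polynomial.eval_ofNat]
    rw [hV]; norm_num
  exact ((h1.image _).union (h2.image _)).union (h2.image _)

theorem exists_gamma : ∃ γ : ℂ, γ ≠ 0 ∧ γ ∉ bad1 ∧ γ ∉ bad2 ∧ γ ∉ bad3 := by
  obtain ⟨γ, hγ⟩ := ((bad_finite.union (Set.finite_singleton (0 : ℂ))).infinite_compl).nonempty
  simp only [Set.mem_compl_iff, Set.mem_union, Set.mem_singleton_iff, not_or] at hγ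
  exact ⟨γ, hγ.2, hγ.1.1.1, hγ.1.1.2, hγ.1.2⟩

/-- independence of the differentials at the base points -/
theorem base_indep {γ : ℂ} (hγ0 : γ ≠ 0) (hγ : γ ∉ bad1) {u v w c0 c1 : ℂ}
    (hne : u ≠ 0 ∨ v ≠ 0 ∨ w ≠ 0)
    (hA : u ^ 15 * w + v ^ 16 + u * v ^ 15 = 0) (hG : u ^ 16 + v ^ 16 + γ * w ^ 16 = 0)
    (e1 : v = 0 ∨ c0 * (16 * v ^ 15 + 15 * u * v ^ 14) + 16 * c1 * v ^ 15 = 0)
    (e2 : w = 0 ∨ c0 * u ^ 15 + 16 * c1 * γ * w ^ 15 = 0) : c0 = 0 ∧ c1 = 0 := by
  have hu : u ≠ 0 := by
    rintro rfl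
    have hv : v = 0 := by
      have : v ^ 16 = 0 := by linear_combination hA
      exact (pow_eq_zero_iff (by norm_num)).1 this
    have hw : w = 0 := by
      rw [hv] at hG
      have : γ * w ^ 16 = 0 := by linear_combination hG
      exact (pow_eq_zero_iff (by norm_num)).1 ((mul_eq_zero.1 this).resolve_left hγ0)
    rcases hne with h | h | h
    · exact h rfl
    · exact h hv
    · exact h hw
  have hw : w ≠ 0 := by
    rintro rfl
    have h1 : v ^ 15 * (v + u) = 0 := by linear_combination hA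
    rcases mul_eq_zero.1 h1 with h2 | h2
    · have hv : v = 0 := (pow_eq_zero_iff (by norm_num)).1 h2
      rw [hv] at hG
      exact hu ((pow_eq_zero_iff (n := 16) (by norm_num)).1 (by linear_combination hG))
    · have hv : v = -u := by linear_combination h2
      rw [hv] at hG
      have : 2 * u ^ 16 = 0 := by linear_combination hG
      exact hu ((pow_eq_zero_iff (n := 16) (by norm_num)).1
        ((mul_eq_zero.1 this).resolve_left (by norm_num)))
  have hv : v ≠ 0 := by
    rintro rfl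
    have : u ^ 15 * w = 0 := by linear_combination hA
    rcases mul_eq_zero.1 this with h | h
    · exact hu ((pow_eq_zero_iff (by norm_num)).1 h)
    · exact hw h
  have e1' : c0 * (16 * v + 15 * u) + 16 * c1 * v = 0 := by
    have h1 := e1.resolve_left hv
    have h2 : v ^ 14 * (c0 * (16 * v + 15 * u) + 16 * c1 * v) = 0 := by linear_combination h1
    exact (mul_eq_zero.1 h2).resolve_left (pow_ne_zero _ hv)
  have e2' := e2.resolve_left hw
  by_cases hc0 : c0 = 0
  · refine ⟨hc0, ?_⟩
    rw [hc0] at e1'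
    have : 16 * v * c1 = 0 := by linear_combination e1'
    exact (mul_eq_zero.1 this).resolve_left (mul_ne_zero (by norm_num) hv)
  · exfalso
    apply hγ
    have h1 : v * u ^ 15 = γ * w ^ 15 * (16 * v + 15 * u) := by
      apply mul_left_cancel₀ hc0
      linear_combination v * e2' - γ * w ^ 15 * e1'
    have h2 : v ^ 16 * (v + u) = (u ^ 16 + v ^ 16) * (16 * v + 15 * u) := by
      linear_combination (-w) * h1 + v * hA - (16 * v + 15 * u) * hG
    refine ⟨v / u, ?_, ?_⟩
    · simp only [Set.mem_ofPred_eq]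
      field_simp
      linear_combination (-1) * h2
    · have h3 : -(v / u) ^ 15 * (v / u + 1) = w / u := by
        field_simp
        linear_combination (-1) * hA
      simp only
      rw [h3]
      field_simp
      linear_combination (-1) * hG

theorem branch_W {t : ℂ} (ht : t ^ 4 = -16) : t ≠ 0 ∧ 1 + t ≠ 0 ∧
    (-15 / (16 * (1 + t))) ^ 15 + 16 * t ≠ 0 := by
  have h1 : ‖t‖ = 2 := by
    have h2 : ‖t‖ ^ 4 = 2 ^ 4 := by
      rw [← norm_pow, ht, norm_neg]
      norm_num
    exact (pow_left_inj₀ (norm_nonneg t) (by norm_num) (by norm_num)).1 h2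
  have ht0 : t ≠ 0 := by
    rintro rfl
    simp at h1
  have h3 : 1 ≤ ‖1 + t‖ := by
    have h4 : ‖t‖ ≤ ‖1 + t‖ + ‖(1 : ℂ)‖ := by
      have := norm_sub_le (1 + t) 1
      simpa using this
    rw [h1, norm_one] at h4
    linarith
  have h5 : 1 + t ≠ 0 := by
    intro h0
    rw [h0, norm_zero] at h3
    linarith
  refine ⟨ht0, h5, fun h0 => ?_⟩
  have h6 : (-15 / (16 * (1 + t))) ^ 15 = -(16 * t) := by linear_combination h0
  have h7 := congrArg norm h6
  rw [norm_pow, norm_neg, norm_mul, h1, norm_div, norm_mul] at h7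
  have h8 : ‖(-15 : ℂ)‖ = 15 := by simp
  have h9 : ‖(16 : ℂ)‖ = 16 := by simp
  rw [h8, h9] at h7
  have h10 : 15 / (16 * ‖1 + t‖) ≤ 1 := by
    rw [div_le_one (by positivity)]
    linarith
  have h11 : (15 / (16 * ‖1 + t‖)) ^ 15 ≤ 1 := pow_le_one₀ (by positivity) h10
  rw [h7] at h11
  norm_num at h11

/-- smoothness of the fibres over the branch points -/
theorem branch_smooth {γ : ℂ} (hγ0 : γ ≠ 0) (hγ2 : γ ∉ bad2) (hγ3 : γ ∉ bad3) {t u v w : ℂ}
    (ht : t ^ 4 = -16) (hne : u ≠ 0 ∨ v ≠ 0 ∨ w ≠ 0)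
    (e0 : u = 0 ∨ 15 * u ^ 14 * w + v ^ 15 + 16 * t * u ^ 15 = 0)
    (e1 : v = 0 ∨ 16 * v ^ 15 + 15 * u * v ^ 14 + 16 * t * v ^ 15 = 0)
    (e2 : w = 0 ∨ u ^ 15 + 16 * t * γ * w ^ 15 = 0) : False := by
  obtain ⟨ht0, ht1, htW⟩ := branch_W ht
  by_cases hu : u = 0
  · have hv : v = 0 := by
      rcases e1 with h | h
      · exact h
      · rw [hu] at h
        have : 16 * (1 + t) * v ^ 15 = 0 := by linear_combination h
        exact (pow_eq_zero_iff (by norm_num)).1
          ((mul_eq_zero.1 this).resolve_left (mul_ne_zero (by norm_num) ht1))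
    have hw : w = 0 := by
      rcases e2 with h | h
      · exact h
      · rw [hu] at h
        have : 16 * t * γ * w ^ 15 = 0 := by linear_combination h
        exact (pow_eq_zero_iff (by norm_num)).1
          ((mul_eq_zero.1 this).resolve_left (mul_ne_zero (mul_ne_zero (by norm_num) ht0) hγ0))
    rcases hne with h | h | h
    · exact h hu
    · exact h hv
    · exact h hw
  · have e0' := e0.resolve_left hu
    have hWeq : w / u = -((v / u) ^ 15 + 16 * t) / 15 := by
      field_simp
      linear_combination e0'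
    have hfin : w ≠ 0 → γ = -1 / (16 * t * (w / u) ^ 15) := by
      intro hw
      have h1 := e2.resolve_left hw
      field_simp
      linear_combination h1
    by_cases hv : v = 0
    · have hW2 : w / u = -16 * t / 15 := by
        rw [hWeq, hv]; ring
      have hw : w ≠ 0 := by
        rintro rfl
        rw [zero_div] at hW2
        have : t = 0 := by linear_combination (15 / 16) * hW2
        exact ht0 this
      apply hγ2
      refine ⟨t, ht, ?_⟩
      simp only
      rw [hfin hw, hW2]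
    · have h1 : 16 * (1 + t) * v + 15 * u = 0 := by
        have h2 := e1.resolve_left hv
        have h3 : v ^ 14 * (16 * (1 + t) * v + 15 * u) = 0 := by linear_combination h2
        exact (mul_eq_zero.1 h3).resolve_left (pow_ne_zero _ hv)
      have hV : v / u = -15 / (16 * (1 + t)) := by
        field_simp
        linear_combination h1
      rw [hV] at hWeq
      have hw : w ≠ 0 := by
        rintro rfl
        rw [zero_div] at hWeq
        apply htW
        linear_combination 15 * hWeq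
      apply hγ3
      refine ⟨t, ht, ?_⟩
      simp only
      rw [hfin hw, hWeq]

theorem dE (b x : Fin 3 → ℂ) :
    (fun i => eval (Sum.elim b x) (pderiv i Ep)) =
      Sum.elim ![4 * b 0 ^ 3, 4 * b 1 ^ 3, 4 * b 2 ^ 3] ![0, 0, 0] := by
  funext i
  rcases i with i | i <;> fin_cases i <;>
    simp [Ep, B, pderiv_X]

theorem dF (γ : ℂ) (b x : Fin 3 → ℂ) :
    (fun i => eval (Sum.elim b x) (pderiv i (Fp γ))) =
      Sum.elim ![Af x, 2 * Gf γ x, 0]
        ![16 * x 0 ^ 15 * (b 0 * (15 * (x 0 ^ 16) ^ 14 * x 2 ^ 16 + (x 1 ^ 16) ^ 15) +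
            16 * (2 * b 1) * (x 0 ^ 16) ^ 15),
          16 * x 1 ^ 15 * (b 0 * (16 * (x 1 ^ 16) ^ 15 + 15 * x 0 ^ 16 * (x 1 ^ 16) ^ 14) +
            16 * (2 * b 1) * (x 1 ^ 16) ^ 15),
          16 * x 2 ^ 15 * (b 0 * (x 0 ^ 16) ^ 15 + 16 * (2 * b 1) * γ * (x 2 ^ 16) ^ 15)] := by
  funext i
  rcases i with i | i <;> fin_cases i
  · simp [Fp, Ap, Gp, B, Y, pderiv_X, Af]
  · simp [Fp, Ap, Gp, B, Y, pderiv_X, Gf]
    ring
  · simp [Fp, Ap, Gp, B, Y, pderiv_X]
  · simp [Fp, Ap, Gp, B, Y, pderiv_X]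
    ring
  · simp [Fp, Ap, Gp, B, Y, pderiv_X]
    ring
  · simp [Fp, Ap, Gp, B, Y, pderiv_X]
    ring

theorem smooth {γ : ℂ} (hγ0 : γ ≠ 0) (hγ1 : γ ∉ bad1) (hγ2 : γ ∉ bad2) (hγ3 : γ ∉ bad3) :
    (Xs γ).SmoothSurface := by
  refine ⟨Ep, Fp γ, rfl, fun b x hbx => ?_⟩
  rw [mem_Xs] at hbx
  obtain ⟨hb, hx, hE, hF⟩ := hbx
  rw [dE, dF, LinearIndependent.pair_iff]
  intro s t hst
  have h := fun i => congrFun hst i
  have hb0 := h (Sum.inl 0)
  have hb1 := h (Sum.inl 1)
  have hb2 := h (Sum.inl 2)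
  have hx0 := h (Sum.inr 0)
  have hx1 := h (Sum.inr 1)
  have hx2 := h (Sum.inr 2)
  simp only [Pi.add_apply, Pi.smul_apply, Sum.elim_inl, Sum.elim_inr, smul_eq_mul, Pi.zero_apply,
    Matrix.cons_val_zero, Matrix.cons_val_one, Matrix.cons_val, mul_zero, zero_add,
    add_zero] at hb0 hb1 hb2 hx0 hx1 hx2
  have hxne : x 0 ≠ 0 ∨ x 1 ≠ 0 ∨ x 2 ≠ 0 := by
    by_contra hcon
    push Not at hcon
    apply hx
    funext i
    fin_cases i
    · exact hcon.1
    · exact hcon.2.1
    · exact hcon.2.2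
  have hbne : ¬ (b 0 = 0 ∧ b 1 = 0 ∧ b 2 = 0) := by
    rintro ⟨h0, h1, h2⟩
    apply hb
    funext i
    fin_cases i
    · exact h0
    · exact h1
    · exact h2
  have hune : x 0 ^ 16 ≠ 0 ∨ x 1 ^ 16 ≠ 0 ∨ x 2 ^ 16 ≠ 0 := by
    rcases hxne with h | h | h
    · exact Or.inl (pow_ne_zero _ h)
    · exact Or.inr (Or.inl (pow_ne_zero _ h))
    · exact Or.inr (Or.inr (pow_ne_zero _ h))
  by_cases ht : t = 0
  · refine ⟨?_, ht⟩
    by_contra hs
    rw [ht] at hb0 hb1
    apply hbne
    have aux : ∀ z r : ℂ, s * (4 * z ^ 3) + 0 * r = 0 → z = 0 := by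
      intro z r hz
      have : s * 4 * z ^ 3 = 0 := by linear_combination hz
      exact (pow_eq_zero_iff (by norm_num)).1
        ((mul_eq_zero.1 this).resolve_left (mul_ne_zero hs (by norm_num)))
    exact ⟨aux _ _ hb0, aux _ _ hb1, aux _ 0 (by linear_combination hb2)⟩
  exfalso
  have hdiv : ∀ z r : ℂ, t * (16 * z ^ 15 * r) = 0 → z ^ 16 = 0 ∨ r = 0 := by
    intro z r hz
    have h1 := (mul_eq_zero.1 hz).resolve_left ht
    rcases mul_eq_zero.1 h1 with h2 | h2
    · left
      have := (pow_eq_zero_iff (by norm_num)).1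
        ((mul_eq_zero.1 h2).resolve_left (by norm_num : (16 : ℂ) ≠ 0))
      rw [this]; norm_num
    · exact Or.inr h2
  have k0 := hdiv _ _ hx0
  have k1 := hdiv _ _ hx1
  have k2 := hdiv _ _ hx2
  by_cases hs : s = 0
  · -- base points
    rw [hs] at hb0 hb1
    have hA : Af x = 0 := by
      have : t * Af x = 0 := by linear_combination hb0
      exact (mul_eq_zero.1 this).resolve_left ht
    have hG : Gf γ x = 0 := by
      have : t * 2 * Gf γ x = 0 := by linear_combination hb1
      exact (mul_eq_zero.1 this).resolve_left (mul_ne_zero ht (by norm_num))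
    unfold Af at hA
    unfold Gf at hG
    obtain ⟨h0, h1⟩ := base_indep hγ0 hγ1 (u := x 0 ^ 16) (v := x 1 ^ 16) (w := x 2 ^ 16)
      (c0 := b 0) (c1 := 2 * b 1) hune (by linear_combination hA) (by linear_combination hG)
      (k1.imp id fun h => by linear_combination h) (k2.imp id fun h => by linear_combination h)
    have h1' : b 1 = 0 := (mul_eq_zero.1 h1).resolve_left (by norm_num)
    apply hbne
    refine ⟨h0, h1', ?_⟩
    rw [h0, h1'] at hE
    exact (pow_eq_zero_iff (n := 4) (by norm_num)).1 (by linear_combination hE)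
  · have hb2' : b 2 = 0 := by
      have : s * 4 * b 2 ^ 3 = 0 := by linear_combination hb2
      exact (pow_eq_zero_iff (by norm_num)).1
        ((mul_eq_zero.1 this).resolve_left (mul_ne_zero hs (by norm_num)))
    have hb00 : b 0 ≠ 0 := by
      intro h0
      rw [h0, hb2'] at hE
      exact hbne ⟨h0, (pow_eq_zero_iff (n := 4) (by norm_num)).1 (by linear_combination hE), hb2'⟩
    have h4 : (2 * b 1 / b 0) ^ 4 = -16 := by
      rw [hb2'] at hE
      field_simp
      linear_combination 16 * hE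
    refine branch_smooth hγ0 hγ2 hγ3 h4 hune (k0.imp id fun h => ?_) (k1.imp id fun h => ?_)
      (k2.imp id fun h => ?_)
    · field_simp
      linear_combination h
    · field_simp
      linear_combination h
    · field_simp
      linear_combination h

end Pool.Agent.Q58.CN
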