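import Pool.Agent.Q58.CN.Tan

/-! The intersection number of the special fibre. -/

set_option autoImplicit false

open Polynomial FF Pool.Agent.W603.LV Pool.Agent.TH144.CN IntermediateField

namespace Pool.Agent.Q58.CN

variable {K : Type} [Field K] [Algebra ℂ K] [IsFF ℂ K] {y w : K}

theorem hgt_eq (ht : Transcendental ℂ y) : hgt ℂ y = Module.finrank ℂ⟮y⟯ K := by
  obtain ⟨S, hS, hS2⟩ := poles (k := ℂ) ht
  rw [← hS2]
  unfold hgt
  rw [finsum_eq_sum_of_support_subset (s := S)]
  · push_cast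
    refine Finset.sum_congr rfl fun P hP => ?_
    rw [deg_one, Nat.cast_one, mul_one]
    have := (hS P).1 hP
    omega
  · intro P hP
    rw [Finset.mem_coe, hS]
    by_contra hcon
    apply hP
    simp only
    omega

theorem numbers {ζ : ℂ} (h : w ^ 16 + (y ^ 16 + 1) = 0) (ht : Transcendental ℂ y)
    (hrk : Module.finrank ℂ⟮y⟯ K = 16) {D : Derivation ℂ K K} (hD : D ≠ 0) :
    conormalNumber (bc K ζ) (xc y w) D = -16 ∧ indexNumber (bc K ζ) (xc y w) D = -16 := by
  classical
  have hy0 : y ≠ 0 := by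
    rintro rfl
    exact ht isAlgebraic_zero
  have hw : w ≠ 0 := by
    rintro rfl
    apply ht
    refine ⟨X ^ 16 + 1, ?_, ?_⟩
    · intro h0
      have := congrArg (eval 0) h0
      simp at this
    · have : y ^ 16 + 1 = 0 := by simpa using h
      simpa using this
  have hDy : D y ≠ 0 := der_ne_zero hD ht
  set F : FF.Place ℂ K → ℤ := fun P =>
    P.ord (D y) + 16 * max (-P.ord y) 0 - 15 * max (P.ord w) 0 with hF
  obtain ⟨T1, hT1⟩ := exists_supp (k := ℂ) (Finset.univ : Finset (Fin 3)) ![y, w, D y]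
  set T : Finset (FF.Place ℂ K) := T1 ∪ (vo_finite hD).toFinset with hT
  have hTy : ∀ P : FF.Place ℂ K, P.ord y ≠ 0 → P ∈ T := fun P hP =>
    Finset.mem_union_left _ (hT1 0 (Finset.mem_univ _) P hP)
  have hTw : ∀ P : FF.Place ℂ K, P.ord w ≠ 0 → P ∈ T := fun P hP =>
    Finset.mem_union_left _ (hT1 1 (Finset.mem_univ _) P hP)
  have hTD : ∀ P : FF.Place ℂ K, P.ord (D y) ≠ 0 → P ∈ T := fun P hP =>
    Finset.mem_union_left _ (hT1 2 (Finset.mem_univ _) P hP)
  have hTv : ∀ P : FF.Place ℂ K, vo P D ≠ 0 → P ∈ T := fun P hP =>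
    Finset.mem_union_right _ (by simpa using hP)
  have hFT : ∀ P : FF.Place ℂ K, P ∉ T → F P = 0 := by
    intro P hP
    have h1 : P.ord y = 0 := by
      by_contra hne; exact hP (hTy P hne)
    have h2 : P.ord w = 0 := by
      by_contra hne; exact hP (hTw P hne)
    have h3 : P.ord (D y) = 0 := by
      by_contra hne; exact hP (hTD P hne)
    rw [hF]
    simp [h1, h2, h3]
  have hvT : ∀ P : FF.Place ℂ K, P ∉ T → vo P D = 0 := by
    intro P hP
    by_contra hne; exact hP (hTv P hne)
  have htan : ∀ P : TH144.CN.Place K, tangentOrder P (bc K ζ) (xc y w) D = F (toFF P) :=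
    fun P => (tan_eq P h hw hy0 hD hDy).2
  have hbr : ∀ P : TH144.CN.Place K, ((branchMult P (bc K ζ) (xc y w) : ℤ) - 1) =
      F (toFF P) - vo (toFF P) D := by
    intro P
    have h1 := tangentOrder_eq P hD (tan_eq (ζ := ζ) P h hw hy0 hD hDy).1
    rw [htan, vectorOrder_eq P hD] at h1
    omega
  -- the sum of the local terms
  have hhy : hgt ℂ y = 16 := by rw [hgt_eq ht, hrk]; rfl
  have hhw : hgt ℂ w = hgt ℂ y := by
    unfold hgt
    refine finsum_congr fun P => ?_
    rcases lt_or_ge (P.ord y) 0 with h1 | h1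
    · rw [w_lt h hy0 h1]
    · have := w_ge h hw (Or.inr h1 : Ge P 0 y)
      omega
  have hhi : hgt ℂ w⁻¹ = 16 := by rw [hgt_inv, hhw, hhy]
  have hsum : ∑ P ∈ T, F P = 16 := by
    have h1 : ∑ P ∈ T, P.ord (D y) = 0 := sum_ord_finset _ T hTD
    have h2 : ∑ P ∈ T, max (-P.ord y) 0 = 16 := by rw [← hhy, hgt_finset y T hTy]
    have h3 : ∑ P ∈ T, max (P.ord w) 0 = 16 := by
      rw [← hhi, hgt_finset w⁻¹ T (fun P hP => hTw P (by rw [P.ord_inv] at hP; omega))]
      refine Finset.sum_congr rfl fun P _ => ?_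
      rw [P.ord_inv, neg_neg]
    rw [hF, Finset.sum_sub_distrib, Finset.sum_add_distrib, ← Finset.mul_sum, ← Finset.mul_sum,
      h1, h2, h3]
    norm_num
  constructor
  · unfold conormalNumber
    rw [finsum_congr htan, finsum_comp_equiv toFF,
      finsum_eq_sum_of_support_subset (s := T) _ (fun P hP => by
        by_contra hcon; exact hP (hFT P hcon)), hsum]
  · unfold indexNumber
    rw [finsum_congr (fun P => vectorOrder_eq P hD), finsum_congr hbr,
      finsum_comp_equiv toFF (f := fun P => vo P D),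
      finsum_comp_equiv toFF (f := fun P => F P - vo P D),
      finsum_eq_sum_of_support_subset (s := T) _ (fun P hP => by
        by_contra hcon; exact hP (hvT P hcon)),
      finsum_eq_sum_of_support_subset (s := T) _ (fun P hP => by
        by_contra hcon; exact hP (by simp [hvT P hcon, hFT P hcon])), Finset.sum_sub_distrib, hsum]
    ring

end Pool.Agent.Q58.CN
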