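import Pool.Agent.Q58.CN.Local

/-! The order of a vector field along the special fibre. -/

set_option autoImplicit false

open Polynomial FF Pool.Agent.W603.LV Pool.Agent.TH144.CN

namespace Pool.Agent.Q58.CN

variable {K : Type} [Field K] [Algebra ℂ K] {y w : K}

/-- homogeneous coordinates of the generic point, first factor -/
noncomputable def bc (K : Type) [Field K] [Algebra ℂ K] (ζ : ℂ) : Fin 3 → K :=
  fun i => algebraMap ℂ K (![1, 0, ζ] i)

/-- homogeneous coordinates of the generic point, second factor -/
def xc (y w : K) : Fin 3 → K := ![1, y, y ^ 15 * w]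

theorem der_w (h : w ^ 16 + (y ^ 16 + 1) = 0) (hw : w ≠ 0) (D : Derivation ℂ K K) :
    D w = -(y ^ 15 * (w ^ 15)⁻¹) * D y := by
  have h1 := congrArg D h
  rw [map_add, map_add, D.leibniz_pow, D.leibniz_pow, Derivation.map_one_eq_zero, map_zero] at h1
  simp only [smul_eq_mul, nsmul_eq_mul, add_zero] at h1
  push_cast at h1
  have : CharZero K := charZero_of_injective_algebraMap (algebraMap ℂ K).injective
  have h2 : (16 : K) ≠ 0 := by norm_num
  have h3 : w ^ 15 * D w + y ^ 15 * D y = 0 := by
    apply mul_left_cancel₀ h2
    linear_combination h1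
  field_simp
  linear_combination h3

theorem der_bc (P : TH144.CN.Place K) {ζ : ℂ} (D : Derivation ℂ K K) {f : K}
    (hf : f ∈ affineCoords P (bc K ζ)) : D f = 0 := by
  obtain ⟨i, j, -, -, rfl⟩ := hf
  unfold bc
  rw [← map_div₀, Derivation.map_algebraMap]

theorem ge_der_div {P : FF.Place ℂ K} {D : Derivation ℂ K K} {N : ℤ} {u v : K}
    (hu : Ge P N (D u)) (hv : Ge P N (D v)) (hu0 : Ge P 0 u) (hv1 : P.ord v = 0) :
    Ge P N (D (u / v)) := by
  have e : D (u / v) = (v⁻¹ * v⁻¹) * (v * D u - u * D v) := by
    rw [Derivation.leibniz_div]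
    simp only [smul_eq_mul]
    by_cases hv0 : v = 0
    · simp [hv0]
    · field_simp
  rw [e]
  have h1 : Ge P 0 v := Or.inr hv1.ge
  have h2 : Ge P 0 v⁻¹ := Or.inr (by rw [P.ord_inv, hv1]; rfl)
  have h3 : Ge P N (v * D u - u * D v) := by
    refine Ge.sub ?_ ?_
    · simpa using h1.mul hu
    · simpa using hu0.mul hv
  simpa using (h2.mul h2).mul h3

variable [IsFF ℂ K]

theorem tan_eq (P : TH144.CN.Place K) (h : w ^ 16 + (y ^ 16 + 1) = 0) (hw : w ≠ 0) (hy0 : y ≠ 0)
    {ζ : ℂ} {D : Derivation ℂ K K} (hD : D ≠ 0) (hDy : D y ≠ 0) :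
    (∃ f ∈ affineCoords P (bc K ζ) ∪ affineCoords P (xc y w), D f ≠ 0) ∧
    tangentOrder P (bc K ζ) (xc y w) D =
      P.ord (D y) + 16 * max (-P.ord y) 0 - 15 * max (P.ord w) 0 := by
  have hchar : CharZero K := charZero_of_injective_algebraMap (algebraMap ℂ K).injective
  have key : IsLeast {m : ℤ | ∃ f ∈ affineCoords P (bc K ζ) ∪ affineCoords P (xc y w),
      D f ≠ 0 ∧ P.ord (D f) = m} (P.ord (D y) + 16 * max (-P.ord y) 0 - 15 * max (P.ord w) 0) := by
    have hx0 : xc y w 0 = 1 := rfl
    have hx1 : xc y w 1 = y := rfl
    have hx2 : xc y w 2 = y ^ 15 * w := rfl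
    have hx20 : y ^ 15 * w ≠ 0 := mul_ne_zero (pow_ne_zero _ hy0) hw
    have hox2 : P.ord (y ^ 15 * w) = 15 * P.ord y + P.ord w := by
      rw [P.ord_mul (pow_ne_zero _ hy0) hw]
      have := (toFF P).ord_pow y 15
      rw [toFF_ord] at this
      rw [this]
      push_cast
      ring
    have hone : P.ord 1 = 0 := (toFF P).ord_one
    rcases lt_or_ge (P.ord y) 0 with hy | hy
    · -- poles of `y`
      have hwy : P.ord w = P.ord y := w_lt (P := toFF P) h hy0 hy
      have hvo := (ord_der (toFF P) hD (f := y) (by rw [toFF_ord]; omega)).2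
      rw [toFF_ord] at hvo
      have hi2 : ∀ i : Fin 3, xc y w i ≠ 0 →
          (∀ l, xc y w l ≠ 0 → P.ord (xc y w i) ≤ P.ord (xc y w l)) → i = 2 := by
        intro i hi hmin
        have h2 := hmin 2 (by rw [hx2]; exact hx20)
        rw [hx2, hox2] at h2
        fin_cases i
        · exfalso
          change P.ord (1 : K) ≤ _ at h2
          omega
        · exfalso
          change P.ord y ≤ _ at h2
          omega
        · rfl
      have hmem : ∀ j, xc y w j / xc y w 2 ∈ affineCoords P (xc y w) := by
        intro j
        refine ⟨2, j, by rw [hx2]; exact hx20, ?_, rfl⟩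
        intro l _
        rw [hx2, hox2]
        fin_cases l
        · change _ ≤ P.ord (1 : K)
          omega
        · change _ ≤ P.ord y
          omega
        · change _ ≤ P.ord (y ^ 15 * w)
          omega
      have e1 : D (y / (y ^ 15 * w)) ≠ 0 ∧
          P.ord (D (y / (y ^ 15 * w))) = P.ord (D y) + 16 * (-P.ord y) := by
        have h1 : (toFF P).ord (y / (y ^ 15 * w)) = -(15 * P.ord y) := by
          rw [(toFF P).ord_div hy0 hx20, toFF_ord, hox2]
          omega
        have h2 := ord_der (toFF P) hD (f := y / (y ^ 15 * w)) (by omega)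
        refine ⟨h2.1, ?_⟩
        have h3 := h2.2
        rw [h1, toFF_ord] at h3
        omega
      have e0 : P.ord (D (1 / (y ^ 15 * w))) = P.ord (D y) + 17 * (-P.ord y) := by
        have h1 : (toFF P).ord (1 / (y ^ 15 * w)) = -(16 * P.ord y) := by
          rw [(toFF P).ord_div one_ne_zero hx20, toFF_ord, hox2, hone]
          omega
        have h2 := ord_der (toFF P) hD (f := 1 / (y ^ 15 * w)) (by omega)
        have h3 := h2.2
        rw [h1, toFF_ord] at h3
        omega
      constructor
      · refine ⟨y / (y ^ 15 * w), Or.inr (hmem 1), e1.1, ?_⟩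
        rw [e1.2]
        omega
      · rintro m ⟨f, hf | hf, hDf, rfl⟩
        · exact absurd (der_bc P D hf) hDf
        · obtain ⟨i, j, hi, hmin, rfl⟩ := hf
          obtain rfl := hi2 i hi hmin
          rw [hx2] at hDf ⊢
          fin_cases j
          · change _ ≤ P.ord (D (1 / (y ^ 15 * w)))
            rw [e0]
            omega
          · change _ ≤ P.ord (D (y / (y ^ 15 * w)))
            rw [e1.2]
            omega
          · exfalso
            apply hDf
            change D (y ^ 15 * w / (y ^ 15 * w)) = 0
            rw [div_self hx20, Derivation.map_one_eq_zero]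
    · -- finite places
      have hyG : Ge (toFF P) 0 y := Or.inr hy
      have hw0 : 0 ≤ P.ord w := w_ge (P := toFF P) h hw hyG
      have hwG : Ge (toFF P) 0 w := Or.inr hw0
      have hmem : ∀ j, xc y w j / xc y w 0 ∈ affineCoords P (xc y w) := by
        intro j
        refine ⟨0, j, by rw [hx0]; exact one_ne_zero, ?_, rfl⟩
        intro l _
        rw [hx0, hone]
        fin_cases l
        · change _ ≤ P.ord (1 : K)
          omega
        · change _ ≤ P.ord y
          omega
        · change _ ≤ P.ord (y ^ 15 * w)
          omega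
      set N : ℤ := P.ord (D y) - 15 * P.ord w with hN
      have hDyG : Ge (toFF P) (P.ord (D y)) (D y) := Or.inr le_rfl
      have hDwG : Ge (toFF P) N (D w) := by
        rw [der_w h hw D]
        have h1 : Ge (toFF P) (-(15 * P.ord w)) (w ^ 15)⁻¹ := by
          right
          rw [(toFF P).ord_inv, (toFF P).ord_pow, toFF_ord]
          push_cast
          omega
        have h2 := (((hyG.pow 15).mul h1).neg).mul hDyG
        exact h2.mono (by rw [hN]; push_cast; omega)
      have hD2 : Ge (toFF P) N (D (y ^ 15 * w)) := by
        rw [D.leibniz, D.leibniz_pow]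
        simp only [smul_eq_mul, nsmul_eq_mul]
        refine Ge.add ?_ ?_
        · have := (hyG.pow 15).mul hDwG
          exact this.mono (by omega)
        · have := hwG.mul ((Ge.natCast (P := toFF P) 15).mul ((hyG.pow (15 - 1)).mul hDyG))
          exact this.mono (by rw [hN]; omega)
      have hDx : ∀ l, Ge (toFF P) N (D (xc y w l)) := by
        intro l
        fin_cases l
        · change Ge (toFF P) N (D 1)
          rw [Derivation.map_one_eq_zero]
          exact Ge.zero
        · exact hDyG.mono (by omega)
        · exact hD2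
      have hxG : ∀ l, Ge (toFF P) 0 (xc y w l) := by
        intro l
        fin_cases l
        · exact Ge.one
        · exact hyG
        · have := (hyG.pow 15).mul hwG
          exact this.mono (by omega)
      have hval : P.ord (D y) + 16 * max (-P.ord y) 0 - 15 * max (P.ord w) 0 = N := by
        rw [hN]; omega
      rw [hval]
      constructor
      · rcases eq_or_lt_of_le hw0 with he | he
        · refine ⟨y, Or.inr ?_, hDy, ?_⟩
          · have := hmem 1
            rwa [hx1, hx0, div_one] at this
          · rw [hN]; omega
        · -- zeros of `w`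
          have hy1 : P.ord y = 0 := by
            by_contra hne
            have e : w ^ 16 + y ^ 16 = -1 := by linear_combination h
            have h1 : Ge (toFF P) 1 (w ^ 16 + y ^ 16) := by
              refine Ge.add ?_ ?_
              · right
                rw [(toFF P).ord_pow, toFF_ord]
                push_cast; omega
              · right
                rw [(toFF P).ord_pow, toFF_ord]
                push_cast; omega
            rw [e] at h1
            have h2 := h1.resolve_left (by norm_num)
            rw [(toFF P).ord_neg, (toFF P).ord_one] at h2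
            omega
          have h1 := ord_der (toFF P) hD (f := w) (by rw [toFF_ord]; omega)
          have h2 := ord_der (toFF P) hD (f := y ^ 15 * w) (by rw [toFF_ord, hox2]; omega)
          rw [toFF_ord] at h1 h2
          rw [hox2, hy1] at h2
          have h3 : P.ord (D w) = N := by
            rw [der_w h hw D]
            have h4 : -(y ^ 15 * (w ^ 15)⁻¹) ≠ 0 :=
              neg_ne_zero.2 (mul_ne_zero (pow_ne_zero _ hy0) (inv_ne_zero (pow_ne_zero _ hw)))
            have h5 := (toFF P).ord_mul h4 hDy
            rw [(toFF P).ord_neg, (toFF P).ord_mul (pow_ne_zero _ hy0)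
              (inv_ne_zero (pow_ne_zero _ hw)), (toFF P).ord_inv, (toFF P).ord_pow,
              (toFF P).ord_pow, toFF_ord] at h5
            rw [h5, hN, hy1]
            push_cast
            ring
          refine ⟨y ^ 15 * w, Or.inr ?_, h2.1, ?_⟩
          · have := hmem 2
            rwa [hx2, hx0, div_one] at this
          · rw [h2.2, ← h3, h1.2]
            omega
      · rintro m ⟨f, hf | hf, hDf, rfl⟩
        · exact absurd (der_bc P D hf) hDf
        · obtain ⟨i, j, hi, hmin, rfl⟩ := hf
          have hi0 : P.ord (xc y w i) = 0 := by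
            have h1 := hmin 0 (by rw [hx0]; exact one_ne_zero)
            rw [hx0, hone] at h1
            have h2 := (hxG i).resolve_left hi
            rw [toFF_ord] at h2
            omega
          have := ge_der_div (P := toFF P) (hDx j) (hDx i) (hxG j) hi0
          exact this.resolve_left hDf
  refine ⟨?_, key.csInf_eq⟩
  obtain ⟨f, hf, hDf, -⟩ := key.1
  exact ⟨f, hf, hDf⟩

end Pool.Agent.Q58.CN
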